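import Mathlib

set_option autoImplicit false

open MeasureTheory Set Filter Topology intervalIntegral
open scoped ENNReal Interval

namespace Croft.KA

/-- averaging of a high-frequency factor, uniformly in the parameter `θ`. -/
lemma avg_lemma {G : ℝ × ℝ → ℝ} (hG : Continuous G) (A : ℝ → ℝ) (a1 a2 b1 b2 : ℝ) (hb : b1 ≤ b2)
    {Pf : ℝ → ℝ} (hP : Continuous Pf) (hper : Function.Periodic Pf 1) {η : ℝ} (hη : 0 < η) :
    ∃ k0 > 0, ∀ k ≥ k0, ∀ θ ∈ Icc a1 a2,
      |(∫ p in b1..b2, G (θ, p) * Pf (k * (p - A θ)))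
        - (∫ x in (0:ℝ)..1, Pf x) * ∫ p in b1..b2, G (θ, p)| ≤ η := by
  -- bounds
  obtain ⟨CP, hCP0, hCP⟩ : ∃ C, 0 ≤ C ∧ ∀ x, |Pf x| ≤ C := by
    obtain ⟨C, hC⟩ := (hper.isBounded_of_continuous one_ne_zero hP).exists_norm_le
    refine ⟨C, (norm_nonneg _).trans (hC (Pf 0) (mem_range_self 0)), fun x => ?_⟩
    exact hC (Pf x) (mem_range_self x)
  have hcomp : IsCompact (Icc a1 a2 ×ˢ Icc b1 (b2 + 1)) := isCompact_Icc.prod isCompact_Icc
  obtain ⟨CG, hCG⟩ := hcomp.exists_bound_of_continuousOn hG.continuousOn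
  have hCG0 : 0 ≤ max CG 0 := le_max_right _ _
  have hCG' : ∀ x ∈ Icc a1 a2 ×ˢ Icc b1 (b2 + 1), |G x| ≤ max CG 0 :=
    fun x hx => (hCG x hx).trans (le_max_left _ _)
  set C := max CG 0 with hCdef
  -- uniform continuity
  set η1 : ℝ := η / (2 * (CP + 1) * (b2 - b1 + 1)) with hη1
  have hη1p : 0 < η1 := by have : 0 ≤ b2 - b1 := by linarith
                           positivity
  have huc := hcomp.uniformContinuousOn_of_continuous hG.continuousOn
  rw [Metric.uniformContinuousOn_iff] at huc
  obtain ⟨δ, hδ, hδ2⟩ := huc η1 hη1p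
  refine ⟨max 1 (max (2 / δ) (4 * (C + 1) * (CP + 1) / η)), lt_max_of_lt_left one_pos, ?_⟩
  intro k hk θ hθ
  have hk1 : 1 ≤ k := (le_max_left _ _).trans hk
  have hk0 : 0 < k := by linarith
  have hk2 : 2 / δ ≤ k := (le_max_left _ _).trans ((le_max_right _ _).trans hk)
  have hk3 : 4 * (C + 1) * (CP + 1) / η ≤ k := (le_max_right _ _).trans ((le_max_right _ _).trans hk)
  have hkd : 1 / k < δ := by
    rw [div_le_iff₀ hδ] at hk2
    rw [div_lt_iff₀ hk0]; nlinarith
  have hkη : 2 * C * CP * (1 / k) ≤ η / 2 := by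
    rw [div_le_iff₀ hη] at hk3
    rw [mul_one_div, div_le_iff₀ hk0]
    nlinarith
  set H : ℝ → ℝ := fun p => G (θ, p) with hH
  have hHc : Continuous H := hG.comp (by fun_prop)
  set I : ℝ → ℝ := fun s => ∫ p in b1..b2, H p * Pf (k * (p - A θ) + s) with hI
  have hcont2 : Continuous (Function.uncurry (fun s p : ℝ => H p * Pf (k * (p - A θ) + s))) := by
    unfold Function.uncurry; fun_prop
  -- comparison
  have key : ∀ s ∈ Icc (0:ℝ) 1, |I 0 - I s| ≤ η := by
    intro s hs
    set d : ℝ := s / k with hd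
    have hd0 : 0 ≤ d := div_nonneg hs.1 hk0.le
    have hd1 : d ≤ 1 / k := div_le_div_of_nonneg_right hs.2 hk0.le
    have hd2 : d ≤ 1 := hd1.trans (by rw [div_le_one hk0]; exact hk1)
    set f : ℝ → ℝ := fun p => H p * Pf (k * (p - A θ)) with hf
    have hfc : Continuous f := by fun_prop
    have e0 : I 0 = ∫ p in b1..b2, f p := by simp [hI, hf]
    have e1 : ∫ p in b1..b2, f (p + d) = ∫ p in (b1+d)..(b2+d), f p := by
      rw [intervalIntegral.integral_comp_add_right]
    have e2 : (∫ p in b1..b2, f p) = (∫ p in (b1+d)..(b2+d), f p) + (∫ p in b1..(b1+d), f p)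
        - ∫ p in b2..(b2+d), f p := by
      have hii : ∀ x y : ℝ, IntervalIntegrable f volume x y := fun x y => hfc.intervalIntegrable x y
      have h1 := intervalIntegral.integral_add_adjacent_intervals (hii b1 b2) (hii b2 (b2+d))
      have h2 := intervalIntegral.integral_add_adjacent_intervals (hii b1 (b1+d)) (hii (b1+d) (b2+d))
      linarith
    have e3 : I 0 - I s = (∫ p in b1..b2, (f (p + d) - H p * Pf (k * (p - A θ) + s)))
        + (∫ p in b1..(b1+d), f p) - ∫ p in b2..(b2+d), f p := by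
      rw [intervalIntegral.integral_sub]
      · rw [e0, e2, e1]; simp only [hI]; ring
      · exact (by fun_prop : Continuous fun p => f (p + d)).intervalIntegrable _ _
      · exact (by fun_prop : Continuous fun p => H p * Pf (k * (p - A θ) + s)).intervalIntegrable _ _
    have hfb : ∀ p ∈ Icc b1 (b2 + 1), |f p| ≤ C * CP := by
      intro p hp
      rw [hf]; simp only [abs_mul]
      exact mul_le_mul (hCG' (θ, p) ⟨hθ, hp⟩) (hCP _) (abs_nonneg _) hCG0
    have b1' : ‖∫ p in b1..b2, (f (p + d) - H p * Pf (k * (p - A θ) + s))‖ ≤ (η1 * CP) * |b2 - b1| := by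
      apply intervalIntegral.norm_integral_le_of_norm_le_const
      intro p hp
      rw [uIoc_of_le hb] at hp
      have e4 : f (p + d) - H p * Pf (k * (p - A θ) + s) = (H (p + d) - H p) * Pf (k * (p - A θ) + s) := by
        simp only [hf]
        have : k * (p + d - A θ) = k * (p - A θ) + s := by
          rw [hd]; field_simp; ring
        rw [this]; ring
      rw [e4, norm_mul]
      refine mul_le_mul ?_ (hCP _) (norm_nonneg _) hη1p.le
      have := hδ2 (θ, p + d) ⟨hθ, ⟨by linarith [hp.1], by linarith [hp.2]⟩⟩ (θ, p)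
        ⟨hθ, ⟨hp.1.le, by linarith [hp.2]⟩⟩ (by
          rw [Prod.dist_eq]
          simp only [dist_self, Real.dist_eq]
          rw [show p + d - p = d by ring, abs_of_nonneg hd0]
          exact max_lt hδ (lt_of_le_of_lt hd1 hkd))
      rw [Real.dist_eq] at this
      exact this.le
    have b2' : ‖∫ p in b1..(b1+d), f p‖ ≤ (C * CP) * |b1 + d - b1| := by
      apply intervalIntegral.norm_integral_le_of_norm_le_const
      intro p hp
      rw [uIoc_of_le (by linarith)] at hp
      exact hfb p ⟨hp.1.le, by linarith [hp.2]⟩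
    have b3' : ‖∫ p in b2..(b2+d), f p‖ ≤ (C * CP) * |b2 + d - b2| := by
      apply intervalIntegral.norm_integral_le_of_norm_le_const
      intro p hp
      rw [uIoc_of_le (by linarith)] at hp
      exact hfb p ⟨by linarith [hp.1], by linarith [hp.2]⟩
    rw [Real.norm_eq_abs] at b1' b2' b3'
    have c2 : |b1 + d - b1| = d := by rw [show b1 + d - b1 = d by ring, abs_of_nonneg hd0]
    have c3 : |b2 + d - b2| = d := by rw [show b2 + d - b2 = d by ring, abs_of_nonneg hd0]
    have c1 : |b2 - b1| = b2 - b1 := abs_of_nonneg (by linarith)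
    rw [c2] at b2'
    rw [c3] at b3'
    rw [c1] at b1'
    have c4 : η1 * CP * (b2 - b1) ≤ η / 2 := by
      have h5 : η1 * (2 * (CP + 1) * (b2 - b1 + 1)) = η := by
        have h0 : b2 - b1 + 1 ≠ 0 := by linarith
        rw [hη1]; field_simp
      have h6 : CP * (b2 - b1) ≤ (CP + 1) * (b2 - b1 + 1) := by nlinarith
      nlinarith [mul_le_mul_of_nonneg_left h6 hη1p.le]
    have c5 : C * CP * d + C * CP * d ≤ η / 2 := by
      have : C * CP * d ≤ C * CP * (1 / k) := by
        apply mul_le_mul_of_nonneg_left hd1 (by positivity)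
      linarith
    rw [e3]
    have := abs_add_le ((∫ p in b1..b2, (f (p + d) - H p * Pf (k * (p - A θ) + s)))
        + (∫ p in b1..(b1+d), f p)) (- ∫ p in b2..(b2+d), f p)
    have h7 := abs_add_le (∫ p in b1..b2, (f (p + d) - H p * Pf (k * (p - A θ) + s)))
        (∫ p in b1..(b1+d), f p)
    rw [abs_neg] at this
    rw [sub_eq_add_neg]
    linarith
  -- average over s
  have hIc : Continuous I := by
    simp only [hI]
    exact intervalIntegral.continuous_parametric_intervalIntegral_of_continuous' hcont2 b1 b2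
  have havg : ∫ s in (0:ℝ)..1, I s = (∫ x in (0:ℝ)..1, Pf x) * ∫ p in b1..b2, H p := by
    simp only [hI]
    have hswap : ∫ s in (0:ℝ)..1, ∫ p in b1..b2, H p * Pf (k * (p - A θ) + s)
        = ∫ p in b1..b2, ∫ s in (0:ℝ)..1, H p * Pf (k * (p - A θ) + s) := by
      rw [intervalIntegral.integral_of_le zero_le_one, intervalIntegral.integral_of_le hb]
      simp_rw [intervalIntegral.integral_of_le zero_le_one, intervalIntegral.integral_of_le hb]
      apply MeasureTheory.integral_integral_swap
      rw [Measure.prod_restrict]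
      exact (hcont2.continuousOn.integrableOn_compact
        (isCompact_Icc.prod isCompact_Icc)).mono_set (prod_mono Ioc_subset_Icc_self Ioc_subset_Icc_self)
    rw [hswap]
    have : ∀ p, ∫ s in (0:ℝ)..1, H p * Pf (k * (p - A θ) + s) = (∫ x in (0:ℝ)..1, Pf x) * H p := by
      intro p
      rw [intervalIntegral.integral_const_mul, intervalIntegral.integral_comp_add_left (fun x => Pf x)]
      rw [add_zero, hper.intervalIntegral_add_eq (k * (p - A θ)) 0, zero_add]
      ring
    simp_rw [this]
    rw [intervalIntegral.integral_const_mul]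
  have e9 : (∫ p in b1..b2, G (θ, p) * Pf (k * (p - A θ))) = I 0 := by simp [hI, hH]
  rw [e9, show (∫ x in (0:ℝ)..1, Pf x) * (∫ p in b1..b2, G (θ, p)) = ∫ s in (0:ℝ)..1, I s from havg.symm]
  have e10 : I 0 - ∫ s in (0:ℝ)..1, I s = ∫ s in (0:ℝ)..1, (I 0 - I s) := by
    rw [intervalIntegral.integral_sub (by simp) (hIc.intervalIntegrable _ _)]
    simp
  rw [e10]
  have := intervalIntegral.norm_integral_le_of_norm_le_const (a := (0:ℝ)) (b := 1) (C := η)
    (f := fun s => I 0 - I s) (by
      intro s hs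
      rw [uIoc_of_le zero_le_one] at hs
      exact key s ⟨hs.1.le, hs.2⟩)
  simpa using this

end Croft.KA
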