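import Mathlib
import Pool.Agent.Helper952.Croft.Defs

set_option autoImplicit false

open MeasureTheory Set Filter Topology
open scoped ENNReal

namespace Croft.KA

/-- offset of the line with normal direction `θ` through `z`. -/
noncomputable def nd (z : ℂ) (θ : ℝ) : ℝ := z.re * Real.cos θ + z.im * Real.sin θ

/-- tangential coordinate of `z` on that line. -/
noncomputable def td (z : ℂ) (θ : ℝ) : ℝ := -z.re * Real.sin θ + z.im * Real.cos θ

/-- pencil derivative of `F` at the line `l` with respect to the point with coordinate `σ`. -/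
noncomputable def pd (F : ℝ × ℝ → ℝ) (θ p σ : ℝ) : ℝ := fderiv ℝ F (θ, p) (1, σ)

lemma pt_re (θ p σ : ℝ) : (pt θ p σ).re = p * Real.cos θ - σ * Real.sin θ := by
  unfold pt
  simp [Complex.exp_re, Complex.exp_im]
  ring

lemma pt_im (θ p σ : ℝ) : (pt θ p σ).im = p * Real.sin θ + σ * Real.cos θ := by
  unfold pt
  simp [Complex.exp_re, Complex.exp_im]
  ring

lemma nd_pt (θ p σ : ℝ) : nd (pt θ p σ) θ = p := by
  unfold nd
  rw [pt_re, pt_im]
  have := Real.sin_sq_add_cos_sq θ
  linear_combination p * this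

lemma td_pt (θ p σ : ℝ) : td (pt θ p σ) θ = σ := by
  unfold td
  rw [pt_re, pt_im]
  have := Real.sin_sq_add_cos_sq θ
  linear_combination σ * this

lemma hasDerivAt_pencil {F : ℝ × ℝ → ℝ} (hF : ContDiff ℝ 1 F) (z : ℂ) (θ : ℝ) :
    HasDerivAt (fun θ => F (θ, nd z θ)) (pd F θ (nd z θ) (td z θ)) θ := by
  have h1 : HasDerivAt (fun θ : ℝ => (θ, nd z θ)) (1, td z θ) θ := by
    refine (hasDerivAt_id θ).prodMk ?_
    have h := ((Real.hasDerivAt_cos θ).const_mul z.re).add ((Real.hasDerivAt_sin θ).const_mul z.im)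
    have e1 : td z θ = z.re * -Real.sin θ + z.im * Real.cos θ := by unfold td; ring
    rw [e1]
    exact h
  have h2 : HasFDerivAt F (fderiv ℝ F (θ, nd z θ)) (θ, nd z θ) :=
    (hF.differentiable (by norm_num) _).hasFDerivAt
  exact h2.comp_hasDerivAt θ h1

lemma continuous_pd {F : ℝ × ℝ → ℝ} (hF : ContDiff ℝ 1 F) :
    Continuous (fun x : ℝ × ℝ × ℝ => pd F x.1 x.2.1 x.2.2) := by
  unfold pd
  have h := hF.continuous_fderiv (by norm_num)
  have h1 : Continuous (fun x : ℝ × ℝ × ℝ => fderiv ℝ F (x.1, x.2.1)) := h.comp (by fun_prop)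
  exact h1.clm_apply (by fun_prop)

lemma continuous_pt : Continuous (fun x : ℝ × ℝ × ℝ => pt x.1 x.2.1 x.2.2) := by
  unfold pt; fun_prop

lemma continuous_nd : Continuous (fun x : ℂ × ℝ => nd x.1 x.2) := by
  unfold nd; fun_prop

lemma continuous_td : Continuous (fun x : ℂ × ℝ => td x.1 x.2) := by
  unfold td; fun_prop

/-- rotation by `θ` preserves the measure. -/
lemma measurePreserving_pt (θ : ℝ) :
    MeasurePreserving (fun x : ℝ × ℝ => pt θ x.1 x.2) volume volume := by
  have h1 : MeasurePreserving (Complex.measurableEquivRealProd.symm) volume volume :=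
    Complex.volume_preserving_equiv_real_prod.symm _
  have h2 : MeasurePreserving (rotation (Circle.exp θ)) volume volume :=
    (rotation (Circle.exp θ)).measurePreserving
  have h3 := h2.comp h1
  have h4 : (fun x : ℝ × ℝ => pt θ x.1 x.2) =
      (rotation (Circle.exp θ)) ∘ (Complex.measurableEquivRealProd.symm) := by
    funext x
    simp only [Function.comp, rotation_apply, pt, Circle.coe_exp]
    congr 1
    rw [Complex.measurableEquivRealProd_symm_apply]
    apply Complex.ext <;> simp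
  rw [h4]
  exact h3

/-- one-dimensional area inequality -/
lemma image_le {f f' : ℝ → ℝ} {s : Set ℝ} (hs : MeasurableSet s)
    (hf : ∀ x ∈ s, HasDerivAt f (f' x) x) :
    volume (f '' s) ≤ ∫⁻ x in s, ENNReal.ofReal |f' x| := by
  have := addHaar_image_le_lintegral_abs_det_fderiv volume hs
    (fun x hx => (hf x hx).hasDerivWithinAt.hasFDerivWithinAt)
  simpa only [ContinuousLinearMap.det_toSpanSingleton] using this

/-- the service region -/
def Qreg (F : ℝ × ℝ → ℝ) (W : Set (ℝ × ℝ × ℝ)) (δ : ℝ) : Set (ℂ × ℝ) :=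
  {y | ∃ x ∈ W, pt x.1 x.2.1 x.2.2 = y.1 ∧ |F (x.1, x.2.1) - y.2| ≤ δ}

lemma isCompact_Qreg {F : ℝ × ℝ → ℝ} (hF : Continuous F) {W : Set (ℝ × ℝ × ℝ)}
    (hW : IsCompact W) (δ : ℝ) : IsCompact (Qreg F W δ) := by
  have h1 : Qreg F W δ = (fun y : (ℝ × ℝ × ℝ) × ℝ =>
      (pt y.1.1 y.1.2.1 y.1.2.2, F (y.1.1, y.1.2.1) + y.2)) '' (W ×ˢ Icc (-δ) δ) := by
    ext y
    simp only [Qreg, mem_ofPred_eq, mem_image, mem_prod, mem_Icc, Prod.exists]
    constructor
    · rintro ⟨a, b, c, h1, h2, h3⟩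
      refine ⟨a, b, c, y.2 - F (a, b), ⟨h1, ?_⟩, ?_⟩
      · rw [abs_le] at h3; constructor <;> linarith [h3.1, h3.2]
      · ext1
        · exact h2
        · simp
    · rintro ⟨a, b, c, r, ⟨h1, h2⟩, h3⟩
      refine ⟨a, b, c, h1, ?_, ?_⟩
      · rw [← h3]
      · rw [← h3]; simp only; rw [abs_le]; constructor <;> linarith [h2.1, h2.2]
  rw [h1]
  refine (hW.prod isCompact_Icc).image ?_
  refine Continuous.prodMk ?_ ?_
  · exact continuous_pt.comp continuous_fst
  · exact (hF.comp (by fun_prop)).add continuous_snd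

lemma volume_Qreg_zero_le {F : ℝ × ℝ → ℝ} (hF : ContDiff ℝ 1 F) {W : Set (ℝ × ℝ × ℝ)}
    (hW : IsCompact W) :
    volume (Qreg F W 0) ≤ ∫⁻ x in W, ENNReal.ofReal |pd F x.1 x.2.1 x.2.2| := by
  have hQ : MeasurableSet (Qreg F W 0) := (isCompact_Qreg hF.continuous hW 0).measurableSet
  have hWm : MeasurableSet W := hW.measurableSet
  rw [Measure.volume_eq_prod, Measure.prod_apply hQ]
  -- bound each section
  have hsec : ∀ z : ℂ, volume (Prod.mk z ⁻¹' (Qreg F W 0)) ≤
      ∫⁻ θ, W.indicator (fun x => ENNReal.ofReal |pd F x.1 x.2.1 x.2.2|)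
        (θ, nd z θ, td z θ) := by
    intro z
    have hcont : Continuous (fun θ : ℝ => (θ, nd z θ, td z θ)) := by
      refine continuous_id.prodMk (Continuous.prodMk ?_ ?_)
      · exact continuous_nd.comp (continuous_const.prodMk continuous_id)
      · exact continuous_td.comp (continuous_const.prodMk continuous_id)
    set T : Set ℝ := (fun θ : ℝ => (θ, nd z θ, td z θ)) ⁻¹' W with hT
    have hTm : MeasurableSet T := hcont.measurable hWm
    have h1 : Prod.mk z ⁻¹' (Qreg F W 0) ⊆ (fun θ => F (θ, nd z θ)) '' T := by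
      intro s hs
      obtain ⟨x, hx, hz, hF'⟩ := hs
      simp only at hz hF'
      have h2 : nd z x.1 = x.2.1 := by rw [← hz, nd_pt]
      have h3 : td z x.1 = x.2.2 := by rw [← hz, td_pt]
      refine ⟨x.1, ?_, ?_⟩
      · simp only [hT, mem_preimage, h2, h3]; exact hx
      · simp only [h2]
        have := abs_nonpos_iff.mp hF'
        linarith
    refine (measure_mono h1).trans ?_
    refine (image_le hTm (fun θ _ => hasDerivAt_pencil hF z θ)).trans ?_
    rw [← lintegral_indicator hTm]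
    refine lintegral_mono (fun θ => ?_)
    by_cases hθ : θ ∈ T
    · rw [indicator_of_mem hθ, indicator_of_mem (by simpa [hT] using hθ)]
    · rw [indicator_of_notMem hθ]; exact zero_le
  refine (lintegral_mono hsec).trans ?_
  -- swap the integrals
  have hmeas : Measurable (W.indicator (fun x : ℝ × ℝ × ℝ => ENNReal.ofReal |pd F x.1 x.2.1 x.2.2|)) := by
    refine Measurable.indicator ?_ hWm
    exact ((continuous_pd hF).abs.measurable).ennreal_ofReal
  rw [lintegral_lintegral_swap]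
  · have h4 : ∀ θ : ℝ, ∫⁻ z : ℂ, W.indicator (fun x => ENNReal.ofReal |pd F x.1 x.2.1 x.2.2|)
        (θ, nd z θ, td z θ) =
        ∫⁻ y : ℝ × ℝ, W.indicator (fun x => ENNReal.ofReal |pd F x.1 x.2.1 x.2.2|)
        (θ, y) := by
      intro θ
      have hm1 : Measurable (fun z : ℂ =>
          W.indicator (fun x => ENNReal.ofReal |pd F x.1 x.2.1 x.2.2|) (θ, nd z θ, td z θ)) := by
        apply hmeas.comp
        refine (Continuous.prodMk continuous_const (Continuous.prodMk ?_ ?_)).measurable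
        · exact continuous_nd.comp (continuous_id.prodMk continuous_const)
        · exact continuous_td.comp (continuous_id.prodMk continuous_const)
      rw [← (measurePreserving_pt θ).lintegral_comp hm1]
      simp only [nd_pt, td_pt]
    simp_rw [h4]
    rw [← lintegral_indicator hWm, Measure.volume_eq_prod ℝ (ℝ × ℝ),
      lintegral_prod _ hmeas.aemeasurable]
  · apply Measurable.aemeasurable
    have hc : Continuous (fun x : ℂ × ℝ => (x.2, nd x.1 x.2, td x.1 x.2)) :=
      Continuous.prodMk continuous_snd (Continuous.prodMk continuous_nd continuous_td)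
    exact hmeas.comp hc.measurable

/-- service lemma -/
lemma exists_Qreg_le {F : ℝ × ℝ → ℝ} (hF : ContDiff ℝ 1 F) {W : Set (ℝ × ℝ × ℝ)}
    (hW : IsCompact W) {η : ℝ≥0∞} (hη : 0 < η) :
    ∃ δ > 0, volume (Qreg F W δ) ≤
      (∫⁻ x in W, ENNReal.ofReal |pd F x.1 x.2.1 x.2.2|) + η := by
  have hanti : Antitone (fun n : ℕ => Qreg F W (1 / ((n : ℝ) + 1))) := by
    intro m n hmn y hy
    obtain ⟨x, hx, hz, hF'⟩ := hy
    refine ⟨x, hx, hz, hF'.trans ?_⟩
    exact Nat.one_div_le_one_div hmn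
  have hlim := tendsto_measure_iInter_atTop (μ := (volume : Measure (ℂ × ℝ)))
    (s := fun n : ℕ => Qreg F W (1 / ((n : ℝ) + 1)))
    (fun n => (isCompact_Qreg hF.continuous hW _).measurableSet.nullMeasurableSet) hanti
    ⟨0, (isCompact_Qreg hF.continuous hW _).measure_lt_top.ne⟩
  have hinter : (⋂ n : ℕ, Qreg F W (1 / ((n : ℝ) + 1))) ⊆ Qreg F W 0 := by
    intro y hy
    rw [mem_iInter] at hy
    choose x hx hz hF' using hy
    obtain ⟨x0, hx0, φ, hφ, hlimx⟩ := hW.tendsto_subseq hx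
    refine ⟨x0, hx0, ?_, ?_⟩
    · have h1 : Tendsto (fun n => pt (x (φ n)).1 (x (φ n)).2.1 (x (φ n)).2.2) atTop
          (𝓝 (pt x0.1 x0.2.1 x0.2.2)) := (continuous_pt.tendsto x0).comp hlimx
      have h2 : Tendsto (fun n => pt (x (φ n)).1 (x (φ n)).2.1 (x (φ n)).2.2) atTop
          (𝓝 y.1) := by
        simp only [hz]; exact tendsto_const_nhds
      exact tendsto_nhds_unique h1 h2
    · have h1 : Tendsto (fun n => |F ((x (φ n)).1, (x (φ n)).2.1) - y.2|) atTop
          (𝓝 |F (x0.1, x0.2.1) - y.2|) := by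
        have hc : Continuous (fun x : ℝ × ℝ × ℝ => |F (x.1, x.2.1) - y.2|) := by
          have := hF.continuous
          fun_prop
        exact (hc.tendsto x0).comp hlimx
      have h2 : Tendsto (fun n => 1 / (((φ n : ℕ) : ℝ) + 1)) atTop (𝓝 0) :=
        (tendsto_one_div_add_atTop_nhds_zero_nat (𝕜 := ℝ)).comp hφ.tendsto_atTop
      exact le_of_tendsto_of_tendsto' h1 h2 (fun n => hF' (φ n))
  have hle : volume (⋂ n : ℕ, Qreg F W (1 / ((n : ℝ) + 1))) ≤
      ∫⁻ x in W, ENNReal.ofReal |pd F x.1 x.2.1 x.2.2| :=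
    (measure_mono hinter).trans (volume_Qreg_zero_le hF hW)
  by_cases htop : (∫⁻ x in W, ENNReal.ofReal |pd F x.1 x.2.1 x.2.2|) = ⊤
  · exact ⟨1, one_pos, by rw [htop]; simp⟩
  have hlt : volume (⋂ n : ℕ, Qreg F W (1 / ((n : ℝ) + 1))) <
      (∫⁻ x in W, ENNReal.ofReal |pd F x.1 x.2.1 x.2.2|) + η :=
    lt_of_le_of_lt hle (ENNReal.lt_add_right htop hη.ne')
  obtain ⟨n, hn⟩ := (hlim.eventually (gt_mem_nhds hlt)).exists
  exact ⟨1 / ((n : ℝ) + 1), by positivity, hn.le⟩

end Croft.KA
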