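import Mathlib
import Pool.Agent.Helper445.Croft.Service
import Pool.Agent.Helper445.Croft.Avg

set_option autoImplicit false

open MeasureTheory Set Filter Topology intervalIntegral
open scoped ENNReal Interval

namespace Croft.KA

/-- partial derivative in `p` -/
noncomputable def dp (F : ℝ × ℝ → ℝ) (l : ℝ × ℝ) : ℝ := fderiv ℝ F l (0, 1)

lemma continuous_dp {F : ℝ × ℝ → ℝ} (hF : ContDiff ℝ 1 F) : Continuous (dp F) := by
  unfold dp
  exact (hF.continuous_fderiv (by norm_num)).clm_apply continuous_const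

lemma fderiv_wave {O : Set (ℝ × ℝ)} (hO : IsOpen O) {A : ℝ → ℝ} (hA : ContDiff ℝ 2 A)
    {β k : ℝ} (hk : 0 < k) {φ : ℝ × ℝ → ℝ}
    (hφ : ∀ l ∈ O, φ l = β / (2 * Real.pi * k) * Real.sin (2 * Real.pi * k * (l.2 - A l.1)))
    {l : ℝ × ℝ} (hl : l ∈ O) (v : ℝ × ℝ) :
    fderiv ℝ φ l v = β * Real.cos (2 * Real.pi * k * (l.2 - A l.1)) * (v.2 - deriv A l.1 * v.1) := by
  have hev : φ =ᶠ[𝓝 l] fun l => β / (2 * Real.pi * k) * Real.sin (2 * Real.pi * k * (l.2 - A l.1)) := by
    filter_upwards [hO.mem_nhds hl] with x hx using hφ x hx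
  rw [hev.fderiv_eq]
  have hA1 : HasDerivAt A (deriv A l.1) l.1 := (hA.differentiable (by norm_num) _).hasDerivAt
  have h1 : HasFDerivAt (fun l : ℝ × ℝ => l.2 - A l.1)
      (ContinuousLinearMap.snd ℝ ℝ ℝ - (deriv A l.1) • ContinuousLinearMap.fst ℝ ℝ ℝ) l := by
    refine (hasFDerivAt_snd).sub ?_
    exact hA1.comp_hasFDerivAt l hasFDerivAt_fst
  have h2 := ((h1.const_mul (2 * Real.pi * k)).sin).const_mul (β / (2 * Real.pi * k))
  rw [h2.fderiv]
  simp only [_root_.smul_apply, _root_.sub_apply,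
    ContinuousLinearMap.coe_fst', ContinuousLinearMap.coe_snd', smul_eq_mul]
  have : Real.pi ≠ 0 := Real.pi_ne_zero
  field_simp

lemma integral_cos_cos_bounds {z : ℝ} (hz0 : 0 ≤ z) (hz : z ≤ 1) :
    0 ≤ (∫ x in (0:ℝ)..1, Real.cos (z * Real.cos (2 * Real.pi * x))) ∧
    (∫ x in (0:ℝ)..1, Real.cos (z * Real.cos (2 * Real.pi * x))) ≤ 1 - z ^ 2 / 8 := by
  have hle1 : ∀ x : ℝ, |z * Real.cos (2 * Real.pi * x)| ≤ 1 := by
    intro x
    rw [abs_mul, abs_of_nonneg hz0]
    exact mul_le_one₀ hz (abs_nonneg _) (Real.abs_cos_le_one _)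
  constructor
  · apply intervalIntegral.integral_nonneg zero_le_one
    intro x _
    apply Real.cos_nonneg_of_mem_Icc
    have := abs_le.mp (hle1 x)
    have hpi : 1 ≤ Real.pi / 2 := by have := Real.pi_gt_three; linarith
    constructor <;> linarith [this.1, this.2]
  · have h1 : ∀ y : ℝ, |y| ≤ 1 → Real.cos y ≤ 1 - y ^ 2 / 4 := by
      intro y hy
      have := (abs_le.mp (Real.cos_bound hy)).2
      have h2 : |y| ^ 4 ≤ y ^ 2 := by
        have : |y| ^ 4 = y ^ 2 * |y| ^ 2 := by
          rw [show |y| ^ 4 = |y| ^ 2 * |y| ^ 2 by ring, sq_abs]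
        rw [this]
        have h3 : |y| ^ 2 ≤ 1 := pow_le_one₀ (abs_nonneg _) hy
        nlinarith [sq_nonneg y]
      nlinarith [sq_nonneg y]
    have h2 : (∫ x in (0:ℝ)..1, Real.cos (z * Real.cos (2 * Real.pi * x))) ≤
        ∫ x in (0:ℝ)..1, (1 - (z ^ 2 / 4) * (Real.cos (2 * Real.pi * x)) ^ 2) := by
      apply intervalIntegral.integral_mono_on zero_le_one
      · exact (by fun_prop : Continuous _).intervalIntegrable _ _
      · exact (by fun_prop : Continuous _).intervalIntegrable _ _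
      · intro x _
        have := h1 _ (hle1 x)
        nlinarith [this]
    refine h2.trans (le_of_eq ?_)
    have h3 : ∫ x in (0:ℝ)..1, (Real.cos (2 * Real.pi * x)) ^ 2 = 1 / 2 := by
      have := intervalIntegral.integral_comp_mul_left (a := (0:ℝ)) (b := 1)
        (fun x => (Real.cos x) ^ 2) (c := 2 * Real.pi) (by positivity)
      rw [this, integral_cos_sq]
      simp
      have : Real.pi ≠ 0 := Real.pi_ne_zero
      field_simp
    rw [intervalIntegral.integral_sub (by simp)
      ((by fun_prop : Continuous fun x : ℝ => (z ^ 2 / 4) * (Real.cos (2 * Real.pi * x)) ^ 2).intervalIntegrable _ _)]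
    rw [intervalIntegral.integral_const_mul, h3]
    simp
    ring

lemma integral_sin_cos_zero (z : ℝ) :
    (∫ x in (0:ℝ)..1, Real.sin (z * Real.cos (2 * Real.pi * x))) = 0 := by
  set f : ℝ → ℝ := fun x => Real.sin (z * Real.cos (2 * Real.pi * x)) with hf
  have hper : Function.Periodic f 1 := by
    intro x
    simp only [hf]
    rw [show 2 * Real.pi * (x + 1) = 2 * Real.pi * x + 2 * Real.pi by ring, Real.cos_add_two_pi]
  have h1 : ∫ x in (0:ℝ)..1, f x = ∫ x in (0:ℝ)..1, f (x + 1 / 2) := by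
    rw [intervalIntegral.integral_comp_add_right]
    have := hper.intervalIntegral_add_eq 0 (1/2)
    rw [zero_add] at this
    rw [this]; norm_num
  have h2 : ∀ x, f (x + 1 / 2) = - f x := by
    intro x
    simp only [hf]
    rw [show 2 * Real.pi * (x + 1 / 2) = 2 * Real.pi * x + Real.pi by ring, Real.cos_add_pi]
    rw [mul_neg, Real.sin_neg]
  simp_rw [h2] at h1
  rw [intervalIntegral.integral_neg] at h1
  change ∫ x in (0:ℝ)..1, f x = 0
  linarith

/-- characteristic-function type integral -/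
noncomputable def Ch (b1 b2 : ℝ) (F : ℝ × ℝ → ℝ) (t θ : ℝ) : ℝ :=
  ∫ p in b1..b2, Real.cos (t * dp F (θ, p))

lemma char_step_one {O : Set (ℝ × ℝ)} (hO : IsOpen O) {a1 a2 b1 b2 : ℝ} (hb : b1 ≤ b2)
    (hCO : Icc a1 a2 ×ˢ Icc b1 b2 ⊆ O)
    {A : ℝ → ℝ} (hA : ContDiff ℝ 2 A) {F : ℝ × ℝ → ℝ} (hF : ContDiff ℝ 1 F)
    {β t : ℝ} (ht : 0 ≤ t) (hβ : 0 ≤ β) (htβ : t * β ≤ 1) {η : ℝ} (hη : 0 < η) :
    ∃ k0 > 0, ∀ k ≥ k0, ∀ φ : ℝ × ℝ → ℝ, ContDiff ℝ 1 φ →
      (∀ l ∈ O, φ l = β / (2 * Real.pi * k) * Real.sin (2 * Real.pi * k * (l.2 - A l.1))) →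
      ∀ θ ∈ Icc a1 a2, |Ch b1 b2 (fun l => F l + φ l) t θ| ≤
        (1 - t ^ 2 * β ^ 2 / 8) * |Ch b1 b2 F t θ| + η := by
  have hdp := continuous_dp hF
  have hG1 : Continuous (fun l => Real.cos (t * dp F l)) := by fun_prop
  have hG2 : Continuous (fun l => Real.sin (t * dp F l)) := by fun_prop
  have hP1 : Continuous (fun x => Real.cos (t * β * Real.cos (2 * Real.pi * x))) := by fun_prop
  have hP2 : Continuous (fun x => Real.sin (t * β * Real.cos (2 * Real.pi * x))) := by fun_prop
  have hper1 : Function.Periodic (fun x => Real.cos (t * β * Real.cos (2 * Real.pi * x))) 1 := by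
    intro x
    simp only
    rw [show 2 * Real.pi * (x + 1) = 2 * Real.pi * x + 2 * Real.pi by ring, Real.cos_add_two_pi]
  have hper2 : Function.Periodic (fun x => Real.sin (t * β * Real.cos (2 * Real.pi * x))) 1 := by
    intro x
    simp only
    rw [show 2 * Real.pi * (x + 1) = 2 * Real.pi * x + 2 * Real.pi by ring, Real.cos_add_two_pi]
  obtain ⟨k1, hk1, h1⟩ := avg_lemma hG1 A a1 a2 b1 b2 hb hP1 hper1 (half_pos hη)
  obtain ⟨k2, hk2, h2⟩ := avg_lemma hG2 A a1 a2 b1 b2 hb hP2 hper2 (half_pos hη)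
  refine ⟨max k1 k2, lt_max_of_lt_left hk1, ?_⟩
  intro k hk φ hφ1 hφ θ hθ
  have hk0 : 0 < k := lt_of_lt_of_le hk1 ((le_max_left _ _).trans hk)
  have e1 := h1 k ((le_max_left _ _).trans hk) θ hθ
  have e2 := h2 k ((le_max_right _ _).trans hk) θ hθ
  rw [integral_sin_cos_zero, zero_mul, sub_zero] at e2
  have hz0 : 0 ≤ t * β := mul_nonneg ht hβ
  obtain ⟨hJ0, hJ1⟩ := integral_cos_cos_bounds hz0 htβ
  set Jc := ∫ x in (0:ℝ)..1, Real.cos (t * β * Real.cos (2 * Real.pi * x)) with hJc
  have hdec : Ch b1 b2 (fun l => F l + φ l) t θ =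
      (∫ p in b1..b2, Real.cos (t * dp F (θ, p)) *
        Real.cos (t * β * Real.cos (2 * Real.pi * (k * (p - A θ)))))
      - ∫ p in b1..b2, Real.sin (t * dp F (θ, p)) *
        Real.sin (t * β * Real.cos (2 * Real.pi * (k * (p - A θ)))) := by
    unfold Ch
    rw [← intervalIntegral.integral_sub]
    · apply intervalIntegral.integral_congr
      intro p hp
      rw [uIcc_of_le hb] at hp
      have hl : (θ, p) ∈ O := hCO ⟨hθ, hp⟩
      have e3 : dp (fun l => F l + φ l) (θ, p) =
          dp F (θ, p) + β * Real.cos (2 * Real.pi * (k * (p - A θ))) := by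
        unfold dp
        rw [fderiv_fun_add (hF.differentiable (by norm_num) _) (hφ1.differentiable (by norm_num) _)]
        rw [_root_.add_apply, fderiv_wave hO hA hk0 hφ hl]
        simp only [mul_zero, sub_zero, mul_one]
        rw [mul_assoc (2 * Real.pi) k]
      simp only [e3]
      rw [mul_add, Real.cos_add, mul_assoc t β]
    · exact (by
        have : Continuous fun p : ℝ => dp F (θ, p) := hdp.comp (by fun_prop)
        fun_prop : Continuous _).intervalIntegrable _ _
    · exact (by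
        have : Continuous fun p : ℝ => dp F (θ, p) := hdp.comp (by fun_prop)
        fun_prop : Continuous _).intervalIntegrable _ _
  rw [hdec]
  have e4 : Ch b1 b2 F t θ = ∫ p in b1..b2, Real.cos (t * dp F (θ, p)) := rfl
  rw [← e4] at e1
  set I1 := ∫ p in b1..b2, Real.cos (t * dp F (θ, p)) *
        Real.cos (t * β * Real.cos (2 * Real.pi * (k * (p - A θ))))
  set I2 := ∫ p in b1..b2, Real.sin (t * dp F (θ, p)) *
        Real.sin (t * β * Real.cos (2 * Real.pi * (k * (p - A θ))))
  have e5 : |I1 - I2| ≤ |I1 - Jc * Ch b1 b2 F t θ| + |Jc * Ch b1 b2 F t θ| + |I2| := by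
    have := abs_add_three (I1 - Jc * Ch b1 b2 F t θ) (Jc * Ch b1 b2 F t θ) (-I2)
    rw [abs_neg] at this
    rw [show I1 - I2 = (I1 - Jc * Ch b1 b2 F t θ) + Jc * Ch b1 b2 F t θ + -I2 by ring]
    exact this
  have e6 : |Jc * Ch b1 b2 F t θ| ≤ (1 - t ^ 2 * β ^ 2 / 8) * |Ch b1 b2 F t θ| := by
    rw [abs_mul, abs_of_nonneg hJ0]
    apply mul_le_mul_of_nonneg_right _ (abs_nonneg _)
    calc Jc ≤ 1 - (t * β) ^ 2 / 8 := hJ1
      _ = 1 - t ^ 2 * β ^ 2 / 8 := by ring
  linarith

/-- measure of small values from characteristic functions -/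
lemma small_values {g : ℝ → ℝ} (hg : Continuous g) {b1 b2 : ℝ} (hb : b1 ≤ b2) {M : ℝ} (hM : 0 < M)
    {n : ℕ} (hn : 0 < n) {e : ℝ} (he : 0 ≤ e)
    (h : ∀ j ∈ Finset.Ico 1 n, |∫ p in b1..b2, Real.cos ((j : ℝ) / (n * M) * g p)| ≤ e) :
    volume {p | p ∈ Icc b1 b2 ∧ |g p| ≤ M} ≤ ENNReal.ofReal (4 * ((b2 - b1) / n + e)) := by
  have hn' : (0:ℝ) < n := by exact_mod_cast hn
  set c : ℝ → ℝ := fun x => ∑ i ∈ Finset.range n, Real.cos ((i : ℝ) / (n * M) * x) with hc
  set s : ℝ → ℝ := fun x => ∑ i ∈ Finset.range n, Real.sin ((i : ℝ) / (n * M) * x) with hs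
  set Ψ : ℝ → ℝ := fun x => (c x ^ 2 + s x ^ 2) / n ^ 2 with hΨ
  have hΨ0 : ∀ x, 0 ≤ Ψ x := fun x => by simp only [hΨ]; positivity
  have hΨ1 : ∀ x, |x| ≤ M → 1 / 4 ≤ Ψ x := by
    intro x hx
    have h1 : (n : ℝ) / 2 ≤ c x := by
      simp only [hc]
      have : ∀ i ∈ Finset.range n, (1 / 2 : ℝ) ≤ Real.cos ((i : ℝ) / (n * M) * x) := by
        intro i hi
        have hi' : (i : ℝ) ≤ n := by exact_mod_cast (Finset.mem_range.mp hi).le
        have hy : |(i : ℝ) / (n * M) * x| ≤ 1 := by
          rw [abs_mul, abs_of_nonneg (by positivity : (0:ℝ) ≤ (i:ℝ) / (n * M))]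
          rw [div_mul_eq_mul_div, div_le_one (by positivity)]
          exact mul_le_mul hi' hx (abs_nonneg _) hn'.le
        have := Real.one_sub_sq_div_two_le_cos (x := (i : ℝ) / (n * M) * x)
        have h2 : ((i : ℝ) / (n * M) * x) ^ 2 ≤ 1 := by
          rw [← sq_abs]; exact pow_le_one₀ (abs_nonneg _) hy
        linarith
      calc (n : ℝ) / 2 = ∑ i ∈ Finset.range n, (1 / 2 : ℝ) := by simp; ring
        _ ≤ _ := Finset.sum_le_sum this
    simp only [hΨ]
    rw [le_div_iff₀ (by positivity)]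
    nlinarith [sq_nonneg (s x), h1, hn']
  have hexp : ∀ x, Ψ x = (∑ i ∈ Finset.range n, ∑ j ∈ Finset.range n,
      Real.cos (((i : ℝ) - j) / (n * M) * x)) / n ^ 2 := by
    intro x
    simp only [hΨ]
    congr 1
    simp only [hc, hs]
    rw [sq, sq, Finset.sum_mul_sum, Finset.sum_mul_sum, ← Finset.sum_add_distrib]
    apply Finset.sum_congr rfl
    intro i _
    rw [← Finset.sum_add_distrib]
    apply Finset.sum_congr rfl
    intro j _
    rw [sub_div, sub_mul, Real.cos_sub]
  have hint : ∫ p in b1..b2, Ψ (g p) ≤ (b2 - b1) / n + e := by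
    simp_rw [hexp]
    rw [intervalIntegral.integral_div]
    rw [div_le_iff₀ (by positivity)]
    rw [intervalIntegral.integral_finsetSum (fun i _ => (by fun_prop : Continuous _).intervalIntegrable _ _)]
    have : ∀ i ∈ Finset.range n, ∫ p in b1..b2, ∑ j ∈ Finset.range n,
        Real.cos (((i : ℝ) - j) / (n * M) * g p) ≤ (b2 - b1) + n * e := by
      intro i hi
      rw [intervalIntegral.integral_finsetSum (fun i _ => (by fun_prop : Continuous _).intervalIntegrable _ _)]
      have h1 : ∀ j ∈ Finset.range n, ∫ p in b1..b2, Real.cos (((i : ℝ) - j) / (n * M) * g p) ≤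
          (if j = i then (b2 - b1) else 0) + e := by
        intro j hj
        by_cases hij : j = i
        · subst hij
          simp [he]
        · simp only [hij, if_false, zero_add]
          rcases lt_or_gt_of_ne hij with h2 | h2
          · have := h (i - j) (by
              simp only [Finset.mem_Ico]
              have := Finset.mem_range.mp hi
              omega)
            rw [Nat.cast_sub h2.le] at this
            exact (le_abs_self _).trans this
          · have := h (j - i) (by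
              simp only [Finset.mem_Ico]
              have := Finset.mem_range.mp hj
              omega)
            rw [Nat.cast_sub h2.le] at this
            have h3 : (∫ p in b1..b2, Real.cos (((i : ℝ) - j) / (n * M) * g p)) =
                ∫ p in b1..b2, Real.cos (((j : ℝ) - i) / (n * M) * g p) := by
              congr 1
              funext p
              rw [← Real.cos_neg]
              congr 1
              ring
            rw [h3]
            exact (le_abs_self _).trans this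
      refine (Finset.sum_le_sum h1).trans ?_
      rw [Finset.sum_add_distrib]
      simp only [Finset.sum_ite_eq', Finset.sum_const, Finset.card_range, nsmul_eq_mul]
      rw [if_pos hi]
    refine (Finset.sum_le_sum this).trans ?_
    simp only [Finset.sum_const, Finset.card_range, nsmul_eq_mul]
    have : ((b2 - b1) / n + e) * (n:ℝ) ^ 2 = n * ((b2 - b1) + n * e) := by
      field_simp
    rw [this]
  -- Markov
  have hΨc : Continuous (fun p => Ψ (g p)) := by
    simp only [hΨ, hc, hs]; fun_prop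
  set S := {p | p ∈ Icc b1 b2 ∧ |g p| ≤ M} with hS
  have hSm : MeasurableSet S := by
    have : S = Icc b1 b2 ∩ {p | |g p| ≤ M} := rfl
    rw [this]
    exact measurableSet_Icc.inter (isClosed_le (by fun_prop) continuous_const).measurableSet
  have hSfin : volume S ≠ ⊤ := by
    refine ne_top_of_le_ne_top ?_ (measure_mono (fun p hp => hp.1) : volume S ≤ volume (Icc b1 b2))
    simp
  have h5 : (volume S).toReal * (1 / 4) ≤ ∫ p in b1..b2, Ψ (g p) := by
    rw [intervalIntegral.integral_of_le hb, ← integral_Icc_eq_integral_Ioc]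
    have h6 : ∫ p in S, (1/4 : ℝ) ≤ ∫ p in S, Ψ (g p) := by
      apply setIntegral_mono_on
      · exact integrableOn_const hSfin
      · exact (hΨc.continuousOn.integrableOn_compact isCompact_Icc).mono_set (fun p hp => hp.1)
      · exact hSm
      · intro p hp; exact hΨ1 _ hp.2
    have h7 : ∫ p in S, Ψ (g p) ≤ ∫ p in Icc b1 b2, Ψ (g p) := by
      apply setIntegral_mono_set
      · exact hΨc.continuousOn.integrableOn_compact isCompact_Icc
      · exact Filter.Eventually.of_forall (fun p => hΨ0 _)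
      · exact Filter.Eventually.of_forall (fun p hp => hp.1)
    have h8 : ∫ p in S, (1/4 : ℝ) = (volume S).toReal * (1/4) := by
      rw [setIntegral_const]; simp [Measure.real]
    linarith
  rw [← ENNReal.ofReal_toReal hSfin]
  apply ENNReal.ofReal_le_ofReal
  linarith

end Croft.KA
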