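import Mathlib
import Pool.Agent.Helper445.Croft.Char

set_option autoImplicit false

open MeasureTheory Set Filter Topology intervalIntegral
open scoped ENNReal Interval

namespace Croft.KA

/-- the box -/
def Bx (a1 a2 b1 b2 : ℝ) : Set (ℝ × ℝ × ℝ) := Icc a1 a2 ×ˢ (Icc b1 b2 ×ˢ Icc (-1) 1)

lemma isCompact_Bx (a1 a2 b1 b2 : ℝ) : IsCompact (Bx a1 a2 b1 b2) :=
  isCompact_Icc.prod (isCompact_Icc.prod isCompact_Icc)

lemma pd_add {F φ : ℝ × ℝ → ℝ} (hF : ContDiff ℝ 1 F) (hφ : ContDiff ℝ 1 φ) (θ p σ : ℝ) :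
    pd (fun l => F l + φ l) θ p σ = pd F θ p σ + pd φ θ p σ := by
  unfold pd
  rw [fderiv_fun_add (hF.differentiable (by norm_num) _) (hφ.differentiable (by norm_num) _)]
  rfl

lemma dp_add {F φ : ℝ × ℝ → ℝ} (hF : ContDiff ℝ 1 F) (hφ : ContDiff ℝ 1 φ) (l : ℝ × ℝ) :
    dp (fun l => F l + φ l) l = dp F l + dp φ l := by
  unfold dp
  rw [fderiv_fun_add (hF.differentiable (by norm_num) _) (hφ.differentiable (by norm_num) _)]
  rfl

/-- `pd` is affine in `σ` with slope `dp` -/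
lemma pd_affine (F : ℝ × ℝ → ℝ) (θ p σ τ : ℝ) :
    pd F θ p σ = pd F θ p τ + dp F (θ, p) * (σ - τ) := by
  unfold pd dp
  have h : ((1 : ℝ), σ) = (1, τ) + (σ - τ) • ((0 : ℝ), (1 : ℝ)) := by
    ext <;> simp
  rw [h, map_add, map_smul, smul_eq_mul]
  ring

/-- hypotheses on the family of perturbations -/
structure PFam (P : ℝ → (ℝ × ℝ → ℝ) → Prop) : Prop where
  hadd : ∀ μ₁ μ₂ φ₁ φ₂, P μ₁ φ₁ → P μ₂ φ₂ → P (μ₁ + μ₂) (fun l => φ₁ l + φ₂ l)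
  hzero : ∀ μ, 0 ≤ μ → P μ (fun _ => 0)
  hC1 : ∀ μ φ, P μ φ → ContDiff ℝ 1 φ
  hsup : ∀ μ φ, P μ φ → ∀ l, |φ l| ≤ 2 * μ

lemma PFam.mono {P : ℝ → (ℝ × ℝ → ℝ) → Prop} (h : PFam P) {μ μ' : ℝ} (hμ : μ ≤ μ') {φ : ℝ × ℝ → ℝ}
    (hφ : P μ φ) : P μ' φ := by
  have := h.hadd μ (μ' - μ) φ _ hφ (h.hzero _ (by linarith))
  simpa using this

/-- hypotheses on a site -/
structure Site (P : ℝ → (ℝ × ℝ → ℝ) → Prop) (O : Set (ℝ × ℝ)) (a1 a2 : ℝ) (κ : ℝ → ℝ) : Prop where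
  hκ : ContDiff ℝ 2 κ
  hb : ∀ θ ∈ Icc a1 a2, |deriv κ θ| ≤ 1 / 2
  hw : ∀ K μ : ℝ, 0 < μ → ∃ k0 > 0, ∀ k ≥ k0, ∃ φ, P μ φ ∧ ∀ l ∈ O,
    φ l = K / (2 * Real.pi * k) * Real.sin (2 * Real.pi * k * (l.2 - κ l.1))

lemma one_wave {a1 a2 b1 b2 : ℝ} (hb : b1 ≤ b2) {O : Set (ℝ × ℝ)} (hO : IsOpen O)
    (hCO : Icc a1 a2 ×ˢ Icc b1 b2 ⊆ O) {P : ℝ → (ℝ × ℝ → ℝ) → Prop} (hP : PFam P)
    {κ : ℝ → ℝ} (hS : Site P O a1 a2 κ) {β : ℝ} (hβ : 0 ≤ β) (T : Finset ℝ)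
    (hT : ∀ t ∈ T, 0 ≤ t ∧ t * β ≤ 1) {F : ℝ × ℝ → ℝ} (hF : ContDiff ℝ 1 F)
    {m μ η : ℝ} (hm : 0 < m) (hμ : 0 < μ) (hη : 0 < η) :
    ∃ φ, P μ φ ∧ (∀ l, |φ l| ≤ m) ∧
      (∀ θ ∈ Icc a1 a2, ∀ p ∈ Icc b1 b2, pd φ θ p (deriv κ θ) = 0) ∧
      (∀ θ ∈ Icc a1 a2, ∀ p ∈ Icc b1 b2, ∀ σ ∈ Icc (-1 : ℝ) 1, |pd φ θ p σ| ≤ 2 * β) ∧
      (∀ t ∈ T, ∀ θ ∈ Icc a1 a2, |Ch b1 b2 (fun l => F l + φ l) t θ| ≤
        (1 - t ^ 2 * β ^ 2 / 8) * |Ch b1 b2 F t θ| + η) := by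
  have hμ' : 0 < min μ (m / 2) := lt_min hμ (half_pos hm)
  obtain ⟨k0, hk0, hw⟩ := hS.hw β _ hμ'
  have h1 : ∀ᶠ k in atTop, ∀ t ∈ T, ∀ φ : ℝ × ℝ → ℝ, ContDiff ℝ 1 φ →
      (∀ l ∈ O, φ l = β / (2 * Real.pi * k) * Real.sin (2 * Real.pi * k * (l.2 - κ l.1))) →
      ∀ θ ∈ Icc a1 a2, |Ch b1 b2 (fun l => F l + φ l) t θ| ≤
        (1 - t ^ 2 * β ^ 2 / 8) * |Ch b1 b2 F t θ| + η := by
    rw [Filter.eventually_all_finset]
    intro t ht
    obtain ⟨k1, _, h⟩ := char_step_one hO hb hCO hS.hκ hF (hT t ht).1 hβ (hT t ht).2 hη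
    filter_upwards [eventually_ge_atTop k1] with k hk using h k hk
  obtain ⟨k, hk1, hk2⟩ := (h1.and (eventually_ge_atTop k0)).exists
  obtain ⟨φ, hφP, hφ⟩ := hw k hk2
  have hk : 0 < k := lt_of_lt_of_le hk0 hk2
  have hφC := hP.hC1 _ _ hφP
  have hpd : ∀ θ ∈ Icc a1 a2, ∀ p ∈ Icc b1 b2, ∀ σ : ℝ, pd φ θ p σ =
      β * Real.cos (2 * Real.pi * k * (p - κ θ)) * (σ - deriv κ θ) := by
    intro θ hθ p hp σ
    unfold pd
    rw [fderiv_wave hO hS.hκ hk hφ (hCO ⟨hθ, hp⟩)]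
    simp
  refine ⟨φ, hP.mono (min_le_left _ _) hφP, ?_, ?_, ?_, ?_⟩
  · intro l
    refine (hP.hsup _ _ hφP l).trans ?_
    have := min_le_right μ (m / 2)
    linarith
  · intro θ hθ p hp
    rw [hpd θ hθ p hp]; simp
  · intro θ hθ p hp σ hσ
    rw [hpd θ hθ p hp, abs_mul, abs_mul, abs_of_nonneg hβ]
    have h2 : |σ - deriv κ θ| ≤ 2 := by
      have h3 := abs_le.mp (hS.hb θ hθ)
      rw [abs_le]; constructor <;> linarith [hσ.1, hσ.2, h3.1, h3.2]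
    have h4 : β * |Real.cos (2 * Real.pi * k * (p - κ θ))| ≤ β * 1 :=
      mul_le_mul_of_nonneg_left (Real.abs_cos_le_one _) hβ
    calc _ ≤ (β * 1) * 2 := mul_le_mul h4 h2 (abs_nonneg _) (by linarith)
      _ = 2 * β := by ring
  · intro t ht θ hθ
    exact hk1 t ht φ hφC hφ θ hθ

/-- one sign -/
lemma sign_step {F : ℝ × ℝ → ℝ} (hF : ContDiff ℝ 1 F) {S : Set (ℝ × ℝ × ℝ)} (hS : IsCompact S)
    {ε : ℝ} (hε : |ε| = 1) {c : ℝ} (hc : ∀ x ∈ S, -c ≤ ε * pd F x.1 x.2.1 x.2.2)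
    {η : ℝ} (hη : 0 < η) :
    ∃ δ > 0, volume (Qreg F (S ∩ {x | ε * pd F x.1 x.2.1 x.2.2 ≤ 0}) δ) +
      ENNReal.ofReal c * volume (S ∩ {x | 0 ≤ ε * pd F x.1 x.2.1 x.2.2}) ≤
      ENNReal.ofReal c * volume S + ENNReal.ofReal η := by
  have hcont : Continuous (fun x : ℝ × ℝ × ℝ => ε * pd F x.1 x.2.1 x.2.2) :=
    (continuous_pd hF).const_mul ε
  have hW : IsCompact (S ∩ {x | ε * pd F x.1 x.2.1 x.2.2 ≤ 0}) :=
    hS.inter_right (isClosed_le hcont continuous_const)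
  have hP : IsClosed {x : ℝ × ℝ × ℝ | 0 ≤ ε * pd F x.1 x.2.1 x.2.2} :=
    isClosed_le continuous_const hcont
  obtain ⟨δ, hδ, h⟩ := exists_Qreg_le hF hW (η := ENNReal.ofReal η) (by simpa using hη)
  refine ⟨δ, hδ, ?_⟩
  have h1 : ∫⁻ x in (S ∩ {x | ε * pd F x.1 x.2.1 x.2.2 ≤ 0}), ENNReal.ofReal |pd F x.1 x.2.1 x.2.2|
      ≤ ENNReal.ofReal c * volume (S \ {x | 0 ≤ ε * pd F x.1 x.2.1 x.2.2}) := by
    rw [← lintegral_indicator hW.measurableSet, ← setLIntegral_const,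
      ← lintegral_indicator (hS.measurableSet.diff hP.measurableSet)]
    refine lintegral_mono (fun x => ?_)
    by_cases hx : x ∈ S ∩ {x | ε * pd F x.1 x.2.1 x.2.2 ≤ 0}
    · rw [indicator_of_mem hx]
      have habs : |ε * pd F x.1 x.2.1 x.2.2| = |pd F x.1 x.2.1 x.2.2| := by
        rw [abs_mul, hε, one_mul]
      by_cases hx2 : 0 ≤ ε * pd F x.1 x.2.1 x.2.2
      · have h3 : |pd F x.1 x.2.1 x.2.2| = 0 := by
          rw [← habs, le_antisymm hx.2 hx2, abs_zero]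
        rw [h3]; simp
      · rw [indicator_of_mem (show x ∈ S \ {x | 0 ≤ ε * pd F x.1 x.2.1 x.2.2} from ⟨hx.1, hx2⟩)]
        apply ENNReal.ofReal_le_ofReal
        rw [← habs, abs_of_neg (not_le.mp hx2)]
        linarith [hc x hx.1]
    · rw [indicator_of_notMem hx]; exact zero_le
  have h2 := measure_inter_add_sdiff (μ := volume) S hP.measurableSet
  calc _ ≤ (ENNReal.ofReal c * volume (S \ {x | 0 ≤ ε * pd F x.1 x.2.1 x.2.2}) + ENNReal.ofReal η) +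
        ENNReal.ofReal c * volume (S ∩ {x | 0 ≤ ε * pd F x.1 x.2.1 x.2.2}) := by
        gcongr
        exact h.trans (by gcongr)
    _ = ENNReal.ofReal c * (volume (S ∩ {x | 0 ≤ ε * pd F x.1 x.2.1 x.2.2}) +
          volume (S \ {x | 0 ≤ ε * pd F x.1 x.2.1 x.2.2})) + ENNReal.ofReal η := by ring
    _ = _ := by rw [h2]

lemma iter {a1 a2 b1 b2 : ℝ} (hb : b1 ≤ b2) {O : Set (ℝ × ℝ)} (hO : IsOpen O)
    (hCO : Icc a1 a2 ×ˢ Icc b1 b2 ⊆ O) {P : ℝ → (ℝ × ℝ → ℝ) → Prop} (hP : PFam P)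
    {κ : ℝ → ℝ} (hS : Site P O a1 a2 κ) {β : ℝ} (hβ : 0 ≤ β) (T : Finset ℝ)
    (hT : ∀ t ∈ T, 0 ≤ t ∧ t * β ≤ 1) (N : ℕ) :
    ∀ (F : ℝ × ℝ → ℝ), ContDiff ℝ 1 F → ∀ (Sp Sm : Set (ℝ × ℝ × ℝ)), IsCompact Sp → IsCompact Sm →
      Sp ⊆ Bx a1 a2 b1 b2 → Sm ⊆ Bx a1 a2 b1 b2 →
      (∀ x ∈ Sp, 0 ≤ pd F x.1 x.2.1 x.2.2) → (∀ x ∈ Sm, pd F x.1 x.2.1 x.2.2 ≤ 0) →
      ∀ m μ η : ℝ, 0 < m → 0 < μ → 0 < η →
      ∃ φ, P μ φ ∧ (∀ l, |φ l| ≤ m) ∧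
      (∀ θ ∈ Icc a1 a2, ∀ p ∈ Icc b1 b2, pd φ θ p (deriv κ θ) = 0) ∧
      (∀ t ∈ T, ∀ θ ∈ Icc a1 a2, |Ch b1 b2 (fun l => F l + φ l) t θ| ≤
        (1 - t ^ 2 * β ^ 2 / 8) ^ N * |Ch b1 b2 F t θ| + η) ∧
      ∃ δ > 0, ∃ Q : Set (ℂ × ℝ), MeasurableSet Q ∧
        volume Q ≤ ENNReal.ofReal (2 * β) * (volume Sp + volume Sm) + ENNReal.ofReal η ∧
        (∀ x ∈ Sp, pd (fun l => F l + φ l) x.1 x.2.1 x.2.2 < 0 →
          ∀ s : ℝ, |F (x.1, x.2.1) + φ (x.1, x.2.1) - s| ≤ δ → (pt x.1 x.2.1 x.2.2, s) ∈ Q) ∧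
        (∀ x ∈ Sm, 0 < pd (fun l => F l + φ l) x.1 x.2.1 x.2.2 →
          ∀ s : ℝ, |F (x.1, x.2.1) + φ (x.1, x.2.1) - s| ≤ δ → (pt x.1 x.2.1 x.2.2, s) ∈ Q) := by
  induction N with
  | zero =>
    intro F hF Sp Sm _ _ _ _ hp hm m μ η hm0 hμ hη
    refine ⟨fun _ => 0, hP.hzero μ hμ.le, fun l => by simpa using hm0.le, ?_, ?_, 1, one_pos, ∅,
      MeasurableSet.empty, by simp, ?_, ?_⟩
    · intro θ _ p _
      unfold pd; simp
    · intro t _ θ _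
      simpa using hη.le
    · intro x hx h
      simp only [add_zero] at h
      exact absurd h (not_lt.mpr (hp x hx))
    · intro x hx h
      simp only [add_zero] at h
      exact absurd h (not_lt.mpr (hm x hx))
  | succ N ih =>
    intro F hF Sp Sm hSp hSm hSpB hSmB hp hm m μ η hm0 hμ hη
    have hη3 : 0 < η / 3 := by linarith
    obtain ⟨φ₁, h1P, h1m, h1z, h1b, h1c⟩ := one_wave hb hO hCO hP hS hβ T hT hF
      (half_pos hm0) (half_pos hμ) hη3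
    have h1C := hP.hC1 _ _ h1P
    set F₁ : ℝ × ℝ → ℝ := fun l => F l + φ₁ l with hF₁
    have hF₁C : ContDiff ℝ 1 F₁ := hF.add h1C
    have hpd1 : ∀ θ p σ, pd F₁ θ p σ = pd F θ p σ + pd φ₁ θ p σ := pd_add hF h1C
    have hcp : ∀ x ∈ Sp, -(2 * β) ≤ 1 * pd F₁ x.1 x.2.1 x.2.2 := by
      intro x hx
      have h2 := hSpB hx
      have h3 := abs_le.mp (h1b x.1 h2.1 x.2.1 h2.2.1 x.2.2 h2.2.2)
      rw [hpd1]; linarith [hp x hx, h3.1]
    have hcm : ∀ x ∈ Sm, -(2 * β) ≤ (-1) * pd F₁ x.1 x.2.1 x.2.2 := by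
      intro x hx
      have h2 := hSmB hx
      have h3 := abs_le.mp (h1b x.1 h2.1 x.2.1 h2.2.1 x.2.2 h2.2.2)
      rw [hpd1]; linarith [hm x hx, h3.2]
    obtain ⟨δp, hδp, hQp⟩ := sign_step hF₁C hSp (by simp) hcp hη3
    obtain ⟨δm, hδm, hQm⟩ := sign_step hF₁C hSm (by simp) hcm hη3
    have hcontp : Continuous (fun x : ℝ × ℝ × ℝ => (1:ℝ) * pd F₁ x.1 x.2.1 x.2.2) :=
      (continuous_pd hF₁C).const_mul 1
    have hcontm : Continuous (fun x : ℝ × ℝ × ℝ => (-1:ℝ) * pd F₁ x.1 x.2.1 x.2.2) :=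
      (continuous_pd hF₁C).const_mul (-1)
    set Sp1 := Sp ∩ {x | 0 ≤ 1 * pd F₁ x.1 x.2.1 x.2.2} with hSp1
    set Sm1 := Sm ∩ {x | 0 ≤ (-1) * pd F₁ x.1 x.2.1 x.2.2} with hSm1
    set Wp := Sp ∩ {x | 1 * pd F₁ x.1 x.2.1 x.2.2 ≤ 0} with hWp
    set Wm := Sm ∩ {x | (-1) * pd F₁ x.1 x.2.1 x.2.2 ≤ 0} with hWm
    have hSp1c : IsCompact Sp1 := hSp.inter_right (isClosed_le continuous_const hcontp)
    have hSm1c : IsCompact Sm1 := hSm.inter_right (isClosed_le continuous_const hcontm)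
    have hWpc : IsCompact Wp := hSp.inter_right (isClosed_le hcontp continuous_const)
    have hWmc : IsCompact Wm := hSm.inter_right (isClosed_le hcontm continuous_const)
    have hm1 : 0 < min (m / 2) (min (δp / 2) (δm / 2)) :=
      lt_min (half_pos hm0) (lt_min (half_pos hδp) (half_pos hδm))
    have hm1a : min (m / 2) (min (δp / 2) (δm / 2)) ≤ m / 2 := min_le_left _ _
    have hm1p : min (m / 2) (min (δp / 2) (δm / 2)) ≤ δp / 2 :=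
      (min_le_right _ _).trans (min_le_left _ _)
    have hm1m : min (m / 2) (min (δp / 2) (δm / 2)) ≤ δm / 2 :=
      (min_le_right _ _).trans (min_le_right _ _)
    obtain ⟨φ₂, h2P, h2m, h2z, h2c, δ, hδ, Q, hQm', hQv, hQp', hQm''⟩ := ih F₁ hF₁C Sp1 Sm1 hSp1c hSm1c
      (fun x hx => hSpB hx.1) (fun x hx => hSmB hx.1) (fun x hx => by simpa using hx.2)
      (fun x hx => by have := hx.2; simp only [mem_ofPred_eq] at this; linarith)
      _ (μ / 2) (η / 3) hm1 (half_pos hμ) hη3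
    have h2C := hP.hC1 _ _ h2P
    have hfun : (fun l => F l + (φ₁ l + φ₂ l)) = fun l => F₁ l + φ₂ l := by
      funext l; simp only [hF₁]; ring
    refine ⟨fun l => φ₁ l + φ₂ l, ?_, ?_, ?_, ?_, min δ (min (δp / 2) (δm / 2)),
      lt_min hδ (lt_min (half_pos hδp) (half_pos hδm)), Q ∪ (Qreg F₁ Wp δp ∪ Qreg F₁ Wm δm), ?_, ?_, ?_, ?_⟩
    · have := hP.hadd _ _ _ _ h1P h2P
      simpa using this
    · intro l
      refine (abs_add_le _ _).trans ?_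
      linarith [h1m l, h2m l]
    · intro θ hθ p hp'
      rw [pd_add h1C h2C, h1z θ hθ p hp', h2z θ hθ p hp', add_zero]
    · intro t ht θ hθ
      rw [hfun]
      have e1 := h2c t ht θ hθ
      have e2 := h1c t ht θ hθ
      have e3 : 0 ≤ 1 - t ^ 2 * β ^ 2 / 8 := by
        have h4 : (t * β) ^ 2 ≤ 1 := by
          have := hT t ht
          exact pow_le_one₀ (mul_nonneg this.1 hβ) this.2
        nlinarith
      have e5 : (1 - t ^ 2 * β ^ 2 / 8) ≤ 1 := by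
        have : 0 ≤ t ^ 2 * β ^ 2 := by positivity
        linarith
      have e4 : (1 - t ^ 2 * β ^ 2 / 8) ^ N ≤ 1 := pow_le_one₀ e3 e5
      have e6 : 0 ≤ (1 - t ^ 2 * β ^ 2 / 8) ^ N := pow_nonneg e3 N
      calc _ ≤ (1 - t ^ 2 * β ^ 2 / 8) ^ N * |Ch b1 b2 F₁ t θ| + η / 3 := e1
        _ ≤ (1 - t ^ 2 * β ^ 2 / 8) ^ N * ((1 - t ^ 2 * β ^ 2 / 8) * |Ch b1 b2 F t θ| + η / 3) + η / 3 := by
          gcongr
        _ ≤ _ := by
          have e7 : (1 - t ^ 2 * β ^ 2 / 8) ^ N * (η / 3) ≤ 1 * (η / 3) :=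
            mul_le_mul_of_nonneg_right e4 hη3.le
          have e8 : (1 - t ^ 2 * β ^ 2 / 8) ^ N * ((1 - t ^ 2 * β ^ 2 / 8) * |Ch b1 b2 F t θ| + η / 3) + η / 3
            = (1 - t ^ 2 * β ^ 2 / 8) ^ (N + 1) * |Ch b1 b2 F t θ| +
              (1 - t ^ 2 * β ^ 2 / 8) ^ N * (η / 3) + η / 3 := by ring
          rw [e8]
          linarith
    · exact hQm'.union (((isCompact_Qreg hF₁C.continuous hWpc _).measurableSet).union
        ((isCompact_Qreg hF₁C.continuous hWmc _).measurableSet))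
    · have e1 : volume (Q ∪ (Qreg F₁ Wp δp ∪ Qreg F₁ Wm δm)) ≤
          volume Q + (volume (Qreg F₁ Wp δp) + volume (Qreg F₁ Wm δm)) :=
        (measure_union_le _ _).trans (by gcongr; exact measure_union_le _ _)
      refine e1.trans ?_
      calc volume Q + (volume (Qreg F₁ Wp δp) + volume (Qreg F₁ Wm δm)) ≤
          (ENNReal.ofReal (2 * β) * (volume Sp1 + volume Sm1) + ENNReal.ofReal (η / 3)) +
            (volume (Qreg F₁ Wp δp) + volume (Qreg F₁ Wm δm)) := by gcongr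
        _ = (volume (Qreg F₁ Wp δp) + ENNReal.ofReal (2 * β) * volume Sp1) +
            (volume (Qreg F₁ Wm δm) + ENNReal.ofReal (2 * β) * volume Sm1) + ENNReal.ofReal (η / 3) := by
            ring
        _ ≤ (ENNReal.ofReal (2 * β) * volume Sp + ENNReal.ofReal (η / 3)) +
            (ENNReal.ofReal (2 * β) * volume Sm + ENNReal.ofReal (η / 3)) + ENNReal.ofReal (η / 3) := by
            gcongr
        _ = ENNReal.ofReal (2 * β) * (volume Sp + volume Sm) +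
            (ENNReal.ofReal (η / 3) + ENNReal.ofReal (η / 3) + ENNReal.ofReal (η / 3)) := by ring
        _ = _ := by
            rw [← ENNReal.ofReal_add hη3.le hη3.le, ← ENNReal.ofReal_add (by linarith) hη3.le]
            congr 2
            ring
    · intro x hx hneg s hs
      rw [hfun] at hneg
      by_cases hx1 : x ∈ Sp1
      · left
        refine hQp' x hx1 hneg s ?_
        rw [show F₁ (x.1, x.2.1) + φ₂ (x.1, x.2.1) - s =
          F (x.1, x.2.1) + (φ₁ (x.1, x.2.1) + φ₂ (x.1, x.2.1)) - s by simp only [hF₁]; ring]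
        exact hs.trans (min_le_left _ _)
      · right; left
        refine ⟨x, ⟨hx, ?_⟩, rfl, ?_⟩
        · by_contra h
          have h' := not_le.mp (show ¬ (1 * pd F₁ x.1 x.2.1 x.2.2 ≤ 0) from h)
          exact hx1 ⟨hx, h'.le⟩
        · have e1 : F₁ (x.1, x.2.1) - s = (F (x.1, x.2.1) + (φ₁ (x.1, x.2.1) + φ₂ (x.1, x.2.1)) - s)
              + (- φ₂ (x.1, x.2.1)) := by simp only [hF₁]; ring
          simp only
          rw [e1]
          refine (abs_add_le _ _).trans ?_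
          rw [abs_neg]
          have e2 := h2m (x.1, x.2.1)
          have e3 := hs.trans ((min_le_right _ _).trans (min_le_left _ _))
          linarith
    · intro x hx hpos s hs
      rw [hfun] at hpos
      by_cases hx1 : x ∈ Sm1
      · left
        refine hQm'' x hx1 hpos s ?_
        rw [show F₁ (x.1, x.2.1) + φ₂ (x.1, x.2.1) - s =
          F (x.1, x.2.1) + (φ₁ (x.1, x.2.1) + φ₂ (x.1, x.2.1)) - s by simp only [hF₁]; ring]
        exact hs.trans (min_le_left _ _)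
      · right; right
        refine ⟨x, ⟨hx, ?_⟩, rfl, ?_⟩
        · by_contra h
          have h' := not_le.mp (show ¬ ((-1) * pd F₁ x.1 x.2.1 x.2.2 ≤ 0) from h)
          exact hx1 ⟨hx, h'.le⟩
        · have e1 : F₁ (x.1, x.2.1) - s = (F (x.1, x.2.1) + (φ₁ (x.1, x.2.1) + φ₂ (x.1, x.2.1)) - s)
              + (- φ₂ (x.1, x.2.1)) := by simp only [hF₁]; ring
          simp only
          rw [e1]
          refine (abs_add_le _ _).trans ?_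
          rw [abs_neg]
          have e2 := h2m (x.1, x.2.1)
          have e3 := hs.trans ((min_le_right _ _).trans (min_le_right _ _))
          linarith

end Croft.KA
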