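import Mathlib
import Pool.Agent.Helper445.Croft.Iter

set_option autoImplicit false

open MeasureTheory Set Filter Topology intervalIntegral
open scoped ENNReal Interval

namespace Croft.KA

lemma abs_Ch_le {b1 b2 : ℝ} (hb : b1 ≤ b2) (F : ℝ × ℝ → ℝ) (t θ : ℝ) :
    |Ch b1 b2 F t θ| ≤ b2 - b1 := by
  unfold Ch
  have := intervalIntegral.norm_integral_le_of_norm_le_const (a := b1) (b := b2) (C := 1)
    (f := fun p => Real.cos (t * dp F (θ, p))) (by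
      intro x _
      exact Real.abs_cos_le_one _)
  rw [Real.norm_eq_abs] at this
  rwa [one_mul, abs_of_nonneg (by linarith : (0:ℝ) ≤ b2 - b1)] at this

lemma phase {a1 a2 b1 b2 : ℝ} (hb : b1 ≤ b2) {O : Set (ℝ × ℝ)} (hO : IsOpen O)
    (hCO : Icc a1 a2 ×ˢ Icc b1 b2 ⊆ O) {P : ℝ → (ℝ × ℝ → ℝ) → Prop} (hP : PFam P)
    {κ : ℝ → ℝ} (hS : Site P O a1 a2 κ) {β M ϵ : ℝ} (hβ : 0 < β) (hβM : β ≤ M) (hϵ : 0 < ϵ)
    {F : ℝ × ℝ → ℝ} (hF : ContDiff ℝ 1 F) {Sp Sm : Set (ℝ × ℝ × ℝ)} (hSp : IsCompact Sp)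
    (hSm : IsCompact Sm)
    (hSpB : Sp ⊆ Bx a1 a2 b1 b2) (hSmB : Sm ⊆ Bx a1 a2 b1 b2)
    (hp : ∀ x ∈ Sp, 0 ≤ pd F x.1 x.2.1 x.2.2) (hm : ∀ x ∈ Sm, pd F x.1 x.2.1 x.2.2 ≤ 0)
    {m μ η : ℝ} (hm0 : 0 < m) (hμ : 0 < μ) (hη : 0 < η) :
    ∃ φ, P μ φ ∧ (∀ l, |φ l| ≤ m) ∧
      (∀ θ ∈ Icc a1 a2, ∀ p ∈ Icc b1 b2, pd φ θ p (deriv κ θ) = 0) ∧
      (∀ θ ∈ Icc a1 a2, volume {p | p ∈ Icc b1 b2 ∧ |dp (fun l => F l + φ l) (θ, p)| ≤ M}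
        ≤ ENNReal.ofReal ϵ) ∧
      ∃ δ > 0, ∃ Q : Set (ℂ × ℝ), MeasurableSet Q ∧
        volume Q ≤ ENNReal.ofReal (2 * β) * (volume Sp + volume Sm) + ENNReal.ofReal η ∧
        (∀ x ∈ Sp, pd (fun l => F l + φ l) x.1 x.2.1 x.2.2 < 0 →
          ∀ s : ℝ, |F (x.1, x.2.1) + φ (x.1, x.2.1) - s| ≤ δ → (pt x.1 x.2.1 x.2.2, s) ∈ Q) ∧
        (∀ x ∈ Sm, 0 < pd (fun l => F l + φ l) x.1 x.2.1 x.2.2 →
          ∀ s : ℝ, |F (x.1, x.2.1) + φ (x.1, x.2.1) - s| ≤ δ → (pt x.1 x.2.1 x.2.2, s) ∈ Q) := by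
  have hM : 0 < M := lt_of_lt_of_le hβ hβM
  obtain ⟨n0, hn0⟩ := exists_nat_ge (8 * (b2 - b1) / ϵ)
  set n : ℕ := n0 + 1 with hn
  have hnpos : 0 < n := Nat.succ_pos _
  have hn' : (0:ℝ) < n := by exact_mod_cast hnpos
  have hn1 : (b2 - b1) / n ≤ ϵ / 8 := by
    rw [div_le_iff₀ hn']
    rw [div_le_iff₀ hϵ] at hn0
    have : (n0 : ℝ) ≤ n := by rw [hn]; push_cast; linarith
    nlinarith
  set T : Finset ℝ := (Finset.Ico 1 n).image (fun j : ℕ => (j : ℝ) / (n * M)) with hT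
  have hTn : ∀ t ∈ T, 0 ≤ t ∧ t * β ≤ 1 := by
    intro t ht
    rw [hT, Finset.mem_image] at ht
    obtain ⟨j, hj, rfl⟩ := ht
    have hj' : (j : ℝ) ≤ n := by exact_mod_cast (Finset.mem_Ico.mp hj).2.le
    refine ⟨by positivity, ?_⟩
    rw [div_mul_eq_mul_div, div_le_one (by positivity)]
    exact mul_le_mul hj' hβM hβ.le hn'.le
  set r : ℝ := 1 - β ^ 2 / (8 * n ^ 2 * M ^ 2) with hr
  have hr1 : r < 1 := by
    have : 0 < β ^ 2 / (8 * n ^ 2 * M ^ 2) := by positivity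
    linarith
  have hr0 : 0 ≤ r := by
    have h1 : β ^ 2 / (8 * n ^ 2 * M ^ 2) ≤ 1 := by
      rw [div_le_one (by positivity)]
      have h2 : β ^ 2 ≤ M ^ 2 := by gcongr
      have h3 : (1:ℝ) ≤ n := by exact_mod_cast hnpos
      have h4 : (1:ℝ) ≤ (n:ℝ) ^ 2 := one_le_pow₀ h3
      nlinarith [sq_nonneg M]
    linarith
  obtain ⟨N, hN⟩ : ∃ N : ℕ, r ^ N * (b2 - b1) ≤ ϵ / 16 := by
    have h1 : Tendsto (fun N : ℕ => r ^ N * (b2 - b1)) atTop (𝓝 (0 * (b2 - b1))) :=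
      (tendsto_pow_atTop_nhds_zero_of_lt_one hr0 hr1).mul_const _
    rw [zero_mul] at h1
    obtain ⟨N, hN⟩ := (h1.eventually (gt_mem_nhds (by linarith : (0:ℝ) < ϵ / 16))).exists
    exact ⟨N, hN.le⟩
  have hη' : 0 < min η (ϵ / 16) := lt_min hη (by linarith)
  obtain ⟨φ, h1, h2, h3, h4, δ, hδ, Q, hQ1, hQ2, hQ3, hQ4⟩ := iter hb hO hCO hP hS hβ.le T hTn N F hF
    Sp Sm hSp hSm hSpB hSmB hp hm m μ _ hm0 hμ hη'
  refine ⟨φ, h1, h2, h3, ?_, δ, hδ, Q, hQ1, ?_, hQ3, hQ4⟩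
  · intro θ hθ
    have hφC := hP.hC1 _ _ h1
    have hFφ : ContDiff ℝ 1 (fun l => F l + φ l) := hF.add hφC
    have hg : Continuous (fun p => dp (fun l => F l + φ l) (θ, p)) :=
      (continuous_dp hFφ).comp (by fun_prop)
    refine (small_values hg hb hM hnpos (e := ϵ / 8) (by linarith) ?_).trans ?_
    · intro j hj
      have hjT : (j : ℝ) / (n * M) ∈ T := by
        rw [hT]; exact Finset.mem_image_of_mem _ hj
      have h5 := h4 _ hjT θ hθ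
      refine h5.trans ?_
      have h6 : (1 - ((j : ℝ) / (n * M)) ^ 2 * β ^ 2 / 8) ^ N ≤ r ^ N := by
        apply pow_le_pow_left₀
        · have h7 := hTn _ hjT
          have h8 : (((j : ℝ) / (n * M)) * β) ^ 2 ≤ 1 :=
            pow_le_one₀ (mul_nonneg h7.1 hβ.le) h7.2
          nlinarith
        · rw [hr]
          have hj1 : (1:ℝ) ≤ j := by exact_mod_cast (Finset.mem_Ico.mp hj).1
          have h8 : β ^ 2 / (8 * n ^ 2 * M ^ 2) = (1 / (n * M)) ^ 2 * β ^ 2 / 8 := by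
            field_simp
          rw [h8]
          have h9 : (1 / (n * M)) ^ 2 ≤ ((j : ℝ) / (n * M)) ^ 2 := by gcongr
          have h10 := mul_le_mul_of_nonneg_right h9 (sq_nonneg β)
          linarith
      have h11 : (1 - ((j : ℝ) / (n * M)) ^ 2 * β ^ 2 / 8) ^ N * |Ch b1 b2 F ((j : ℝ) / (n * M)) θ| ≤
          r ^ N * (b2 - b1) :=
        mul_le_mul h6 (abs_Ch_le hb _ _ _) (abs_nonneg _) (pow_nonneg hr0 N)
      have h12 := min_le_right η (ϵ / 16)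
      linarith
    · apply ENNReal.ofReal_le_ofReal
      linarith
  · refine hQ2.trans ?_
    gcongr
    exact min_le_left _ _

lemma bad_cost {a1 a2 b1 b2 : ℝ} {F : ℝ × ℝ → ℝ} (hF : ContDiff ℝ 1 F)
    {κ' : ℝ → ℝ} {M E ϵ : ℝ} (hM : 0 ≤ M) (hE0 : 0 ≤ E) (hϵ : 0 ≤ ϵ)
    (hκb : ∀ θ ∈ Icc a1 a2, |κ' θ| ≤ 1 / 2)
    (hE : ∀ θ ∈ Icc a1 a2, ∀ p ∈ Icc b1 b2, |pd F θ p (κ' θ)| ≤ E)
    (hbad : ∀ θ ∈ Icc a1 a2, volume {p | p ∈ Icc b1 b2 ∧ |dp F (θ, p)| ≤ M} ≤ ENNReal.ofReal ϵ)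
    {η : ℝ} (hη : 0 < η) :
    ∃ δ > 0, volume (Qreg F (Bx a1 a2 b1 b2 ∩ {x | |dp F (x.1, x.2.1)| ≤ M}) δ) ≤
      ENNReal.ofReal ((a2 - a1) * ϵ * 2 * (E + 2 * M)) + ENNReal.ofReal η ∧
      MeasurableSet (Qreg F (Bx a1 a2 b1 b2 ∩ {x | |dp F (x.1, x.2.1)| ≤ M}) δ) := by
  have hcont : Continuous (fun x : ℝ × ℝ × ℝ => |dp F (x.1, x.2.1)|) := by
    have := continuous_dp hF
    fun_prop
  set W := Bx a1 a2 b1 b2 ∩ {x | |dp F (x.1, x.2.1)| ≤ M} with hWdef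
  have hW : IsCompact W := (isCompact_Bx _ _ _ _).inter_right (isClosed_le hcont continuous_const)
  obtain ⟨δ, hδ, h⟩ := exists_Qreg_le hF hW (η := ENNReal.ofReal η) (by simpa using hη)
  refine ⟨δ, hδ, h.trans ?_, (isCompact_Qreg hF.continuous hW _).measurableSet⟩
  gcongr
  have h1 : ∫⁻ x in W, ENNReal.ofReal |pd F x.1 x.2.1 x.2.2| ≤ ENNReal.ofReal (E + 2 * M) * volume W := by
    rw [← setLIntegral_const]
    apply setLIntegral_mono' hW.measurableSet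
    intro x hx
    apply ENNReal.ofReal_le_ofReal
    have hx1 := hx.1.1
    have hx2 := hx.1.2.1
    have hx3 := hx.1.2.2
    have hx4 : |dp F (x.1, x.2.1)| ≤ M := hx.2
    rw [pd_affine F x.1 x.2.1 x.2.2 (κ' x.1)]
    refine (abs_add_le _ _).trans ?_
    rw [abs_mul]
    have h2 : |x.2.2 - κ' x.1| ≤ 2 := by
      have h3 := abs_le.mp (hκb x.1 hx1)
      rw [abs_le]; constructor <;> linarith [hx3.1, hx3.2, h3.1, h3.2]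
    have h4 : |dp F (x.1, x.2.1)| * |x.2.2 - κ' x.1| ≤ M * 2 :=
      mul_le_mul hx4 h2 (abs_nonneg _) hM
    linarith [hE x.1 hx1 x.2.1 hx2]
  have h2 : volume W ≤ ENNReal.ofReal ((a2 - a1) * ϵ * 2) := by
    rw [Measure.volume_eq_prod, Measure.prod_apply hW.measurableSet]
    have h3 : ∀ θ, volume (Prod.mk θ ⁻¹' W) ≤
        (Icc a1 a2).indicator (fun _ => ENNReal.ofReal (ϵ * 2)) θ := by
      intro θ
      by_cases hθ : θ ∈ Icc a1 a2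
      · rw [indicator_of_mem hθ]
        have h4 : Prod.mk θ ⁻¹' W ⊆ {p | p ∈ Icc b1 b2 ∧ |dp F (θ, p)| ≤ M} ×ˢ Icc (-1:ℝ) 1 := by
          intro y hy
          exact ⟨⟨hy.1.2.1, hy.2⟩, hy.1.2.2⟩
        refine (measure_mono h4).trans ?_
        rw [Measure.volume_eq_prod, Measure.prod_prod, Real.volume_Icc]
        rw [ENNReal.ofReal_mul hϵ]
        gcongr
        · exact hbad θ hθ
        · norm_num
      · rw [indicator_of_notMem hθ]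
        have : Prod.mk θ ⁻¹' W = ∅ := by
          ext y
          simp only [mem_preimage, mem_empty_iff_false, iff_false]
          intro hy
          exact hθ hy.1.1
        rw [this]; simp
    refine (lintegral_mono h3).trans ?_
    rw [lintegral_indicator measurableSet_Icc, setLIntegral_const, Real.volume_Icc,
      ← ENNReal.ofReal_mul (by positivity)]
    apply ENNReal.ofReal_le_ofReal
    linarith
  refine h1.trans ?_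
  calc _ ≤ ENNReal.ofReal (E + 2 * M) * ENNReal.ofReal ((a2 - a1) * ϵ * 2) := by gcongr
    _ = _ := by
      rw [← ENNReal.ofReal_mul (by linarith)]
      congr 1; ring

lemma exists_E {a1 a2 b1 b2 : ℝ} {F : ℝ × ℝ → ℝ} (hF : ContDiff ℝ 1 F) {κ : ℝ → ℝ}
    (hκ : ContDiff ℝ 2 κ) (ϱ : ℝ) :
    ∃ E : ℝ, ϱ ≤ E ∧ ∀ θ ∈ Icc a1 a2, ∀ p ∈ Icc b1 b2, |pd F θ p (deriv κ θ)| ≤ E := by
  have hκ' : Continuous (deriv κ) := hκ.continuous_deriv (by norm_num)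
  have hc : Continuous (fun l : ℝ × ℝ => pd F l.1 l.2 (deriv κ l.1)) :=
    (continuous_pd hF).comp (by fun_prop : Continuous (fun l : ℝ × ℝ => (l.1, l.2, deriv κ l.1)))
  obtain ⟨C, hC⟩ := (isCompact_Icc.prod isCompact_Icc : IsCompact (Icc a1 a2 ×ˢ Icc b1 b2)).exists_bound_of_continuousOn
    hc.continuousOn
  refine ⟨max ϱ C, le_max_left _ _, fun θ hθ p hp => ?_⟩
  exact (hC (θ, p) ⟨hθ, hp⟩).trans (le_max_right _ _)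

lemma sgn1 {e d y M ϱ : ℝ} (he : e ≤ M * ϱ) (hd : M < d) (hM : 0 ≤ M) (hϱ : 0 < ϱ) (hy : y ≤ -ϱ) :
    e + d * y < 0 := by
  have h1 : d * y ≤ d * (-ϱ) := mul_le_mul_of_nonneg_left hy (by linarith)
  have h2 : M * ϱ < d * ϱ := mul_lt_mul_of_pos_right hd hϱ
  linarith

lemma sgn2 {e d y M ϱ : ℝ} (he : -(M * ϱ) ≤ e) (hd : M < d) (hM : 0 ≤ M) (hϱ : 0 < ϱ) (hy : ϱ ≤ y) :
    0 < e + d * y := by
  have h1 : d * ϱ ≤ d * y := mul_le_mul_of_nonneg_left hy (by linarith)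
  have h2 : M * ϱ < d * ϱ := mul_lt_mul_of_pos_right hd hϱ
  linarith

lemma sgn3 {e d y M ϱ : ℝ} (he : -(M * ϱ) ≤ e) (hd : M < -d) (hM : 0 ≤ M) (hϱ : 0 < ϱ) (hy : y ≤ -ϱ) :
    0 < e + d * y := by
  have h1 : (-d) * y ≤ (-d) * (-ϱ) := mul_le_mul_of_nonneg_left hy (by linarith)
  have h2 : M * ϱ < (-d) * ϱ := mul_lt_mul_of_pos_right hd hϱ
  linarith

lemma sgn4 {e d y M ϱ : ℝ} (he : e ≤ M * ϱ) (hd : M < -d) (hM : 0 ≤ M) (hϱ : 0 < ϱ) (hy : ϱ ≤ y) :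
    e + d * y < 0 := by
  have h1 : (-d) * ϱ ≤ (-d) * y := mul_le_mul_of_nonneg_left hy (by linarith)
  have h2 : M * ϱ < (-d) * ϱ := mul_lt_mul_of_pos_right hd hϱ
  linarith

lemma kill_core {a1 a2 b1 b2 : ℝ} (ha : a1 ≤ a2) (hb : b1 ≤ b2) {O : Set (ℝ × ℝ)} (hO : IsOpen O)
    (hCO : Icc a1 a2 ×ˢ Icc b1 b2 ⊆ O) {P : ℝ → (ℝ × ℝ → ℝ) → Prop} (hP : PFam P)
    {A B : ℝ → ℝ} (hA : Site P O a1 a2 A) (hB : Site P O a1 a2 B) {X : ℝ} (hX : 0 < X)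
    (hsep : ∀ θ ∈ Icc a1 a2, X ≤ deriv A θ - deriv B θ)
    {F : ℝ × ℝ → ℝ} (hF : ContDiff ℝ 1 F) {ε μ : ℝ} (hε : 0 < ε) (hμ : 0 < μ) :
    ∃ φ, P μ φ ∧ ∃ δ > 0, ∃ Q : Set (ℂ × ℝ), MeasurableSet Q ∧ volume Q ≤ ENNReal.ofReal ε ∧
      Serve (fun l => F l + φ l) (Icc a1 a2 ×ˢ Icc b1 b2) (X / 4) δ Q := by
  have hX1 : X ≤ 1 := by
    have h1 := hsep a1 ⟨le_rfl, ha⟩
    have h2 := abs_le.mp (hA.hb a1 ⟨le_rfl, ha⟩)
    have h3 := abs_le.mp (hB.hb a1 ⟨le_rfl, ha⟩)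
    linarith [h2.2, h3.1]
  set ϱ : ℝ := X / 4 with hϱ
  have hϱ0 : 0 < ϱ := by positivity
  set L : ℝ := a2 - a1 + 1 with hL
  have hL0 : 0 < L := by linarith
  -- phase 1
  obtain ⟨E₁, hE₁ϱ, hE₁⟩ := exists_E (a1 := a1) (a2 := a2) (b1 := b1) (b2 := b2) hF hA.hκ ϱ
  have hE₁0 : 0 < E₁ := lt_of_lt_of_le hϱ0 hE₁ϱ
  set M₁ : ℝ := E₁ / ϱ with hM₁
  have hM₁1 : 1 ≤ M₁ := by rw [hM₁, one_le_div hϱ0]; exact hE₁ϱ
  set ϵ₁ : ℝ := ε / (16 * L * (E₁ + 2 * M₁)) with hϵ₁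
  have hϵ₁0 : 0 < ϵ₁ := by positivity
  obtain ⟨φ₁, h1P, h1m, h1z, h1bad, -⟩ := phase hb hO hCO hP hA one_pos hM₁1 hϵ₁0 hF
    isCompact_empty isCompact_empty (empty_subset _) (empty_subset _)
    (fun x hx => absurd hx (notMem_empty x)) (fun x hx => absurd hx (notMem_empty x))
    one_pos (half_pos hμ) one_pos
  have h1C := hP.hC1 _ _ h1P
  set F₁ : ℝ × ℝ → ℝ := fun l => F l + φ₁ l with hF₁
  have hF₁C : ContDiff ℝ 1 F₁ := hF.add h1C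
  have hE₁' : ∀ θ ∈ Icc a1 a2, ∀ p ∈ Icc b1 b2, |pd F₁ θ p (deriv A θ)| ≤ E₁ := by
    intro θ hθ p hp
    rw [hF₁, pd_add hF h1C, h1z θ hθ p hp, add_zero]
    exact hE₁ θ hθ p hp
  obtain ⟨δa, hδa, hQa, hQam⟩ := bad_cost (b1 := b1) (b2 := b2) hF₁C (by linarith : 0 ≤ M₁) hE₁0.le
    hϵ₁0.le hA.hb hE₁' h1bad (by positivity : 0 < ε / 8)
  have hcost1 : (a2 - a1) * ϵ₁ * 2 * (E₁ + 2 * M₁) ≤ ε / 8 := by
    have h2 : ϵ₁ * (16 * L * (E₁ + 2 * M₁)) = ε := by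
      rw [hϵ₁]; field_simp
    have h3 : (a2 - a1) * (ϵ₁ * (E₁ + 2 * M₁)) ≤ L * (ϵ₁ * (E₁ + 2 * M₁)) := by
      apply mul_le_mul_of_nonneg_right (by linarith) (by positivity)
    nlinarith
  -- phase 2
  obtain ⟨E₂, hE₂ϱ, hE₂⟩ := exists_E (a1 := a1) (a2 := a2) (b1 := b1) (b2 := b2) hF₁C hB.hκ ϱ
  have hE₂0 : 0 < E₂ := lt_of_lt_of_le hϱ0 hE₂ϱ
  set M₂ : ℝ := E₂ / ϱ with hM₂
  have hM₂1 : 1 ≤ M₂ := by rw [hM₂, one_le_div hϱ0]; exact hE₂ϱ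
  set ϵ₂ : ℝ := ε / (16 * L * (E₂ + 2 * M₂)) with hϵ₂
  have hϵ₂0 : 0 < ϵ₂ := by positivity
  have hcont : Continuous (fun x : ℝ × ℝ × ℝ => pd F₁ x.1 x.2.1 x.2.2) := continuous_pd hF₁C
  set Sp := Bx a1 a2 b1 b2 ∩ {x | 0 ≤ pd F₁ x.1 x.2.1 x.2.2} with hSp
  set Sm := Bx a1 a2 b1 b2 ∩ {x | pd F₁ x.1 x.2.1 x.2.2 ≤ 0} with hSm
  have hSpc : IsCompact Sp := (isCompact_Bx _ _ _ _).inter_right (isClosed_le continuous_const hcont)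
  have hSmc : IsCompact Sm := (isCompact_Bx _ _ _ _).inter_right (isClosed_le hcont continuous_const)
  set V : ℝ := (volume (Bx a1 a2 b1 b2)).toReal with hV
  have hV0 : 0 ≤ V := ENNReal.toReal_nonneg
  have hVeq : volume (Bx a1 a2 b1 b2) = ENNReal.ofReal V :=
    (ENNReal.ofReal_toReal (isCompact_Bx _ _ _ _).measure_lt_top.ne).symm
  set β₂ : ℝ := min 1 (ε / (16 * (V + 1))) with hβ₂
  have hβ₂0 : 0 < β₂ := lt_min one_pos (by positivity)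
  have hβ₂1 : β₂ ≤ 1 := min_le_left _ _
  have hβ₂V : 2 * β₂ * (V + V) ≤ ε / 4 := by
    have h2 : β₂ * (16 * (V + 1)) ≤ ε := by
      have h3 : β₂ ≤ ε / (16 * (V + 1)) := min_le_right _ _
      rwa [le_div_iff₀ (by positivity)] at h3
    nlinarith
  obtain ⟨φ₂, h2P, h2m, h2z, h2bad, δ₂, hδ₂, Q₂, hQ₂m, hQ₂v, hQ₂p, hQ₂n⟩ := phase hb hO hCO hP hB
    hβ₂0 (hβ₂1.trans hM₂1) hϵ₂0 hF₁C hSpc hSmc (fun x hx => hx.1) (fun x hx => hx.1)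
    (fun x hx => hx.2) (fun x hx => hx.2) (half_pos hδa) (half_pos hμ) (by positivity : 0 < ε / 8)
  have h2C := hP.hC1 _ _ h2P
  set F₂ : ℝ × ℝ → ℝ := fun l => F₁ l + φ₂ l with hF₂
  have hF₂C : ContDiff ℝ 1 F₂ := hF₁C.add h2C
  have hE₂' : ∀ θ ∈ Icc a1 a2, ∀ p ∈ Icc b1 b2, |pd F₂ θ p (deriv B θ)| ≤ E₂ := by
    intro θ hθ p hp
    rw [hF₂, pd_add hF₁C h2C, h2z θ hθ p hp, add_zero]
    exact hE₂ θ hθ p hp
  obtain ⟨δb, hδb, hQb, hQbm⟩ := bad_cost (b1 := b1) (b2 := b2) hF₂C (by linarith : 0 ≤ M₂) hE₂0.le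
    hϵ₂0.le hB.hb hE₂' h2bad (by positivity : 0 < ε / 8)
  have hcost2 : (a2 - a1) * ϵ₂ * 2 * (E₂ + 2 * M₂) ≤ ε / 8 := by
    have h2 : ϵ₂ * (16 * L * (E₂ + 2 * M₂)) = ε := by
      rw [hϵ₂]; field_simp
    have h3 : (a2 - a1) * (ϵ₂ * (E₂ + 2 * M₂)) ≤ L * (ϵ₂ * (E₂ + 2 * M₂)) := by
      apply mul_le_mul_of_nonneg_right (by linarith) (by positivity)
    nlinarith
  set Wa := Bx a1 a2 b1 b2 ∩ {x | |dp F₁ (x.1, x.2.1)| ≤ M₁} with hWa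
  set Wb := Bx a1 a2 b1 b2 ∩ {x | |dp F₂ (x.1, x.2.1)| ≤ M₂} with hWb
  refine ⟨fun l => φ₁ l + φ₂ l, ?_, min δ₂ (min (δa / 2) δb), lt_min hδ₂ (lt_min (half_pos hδa) hδb),
    Q₂ ∪ (Qreg F₁ Wa δa ∪ Qreg F₂ Wb δb), hQ₂m.union (hQam.union hQbm), ?_, ?_⟩
  · have := hP.hadd _ _ _ _ h1P h2P
    simpa using this
  · -- volume
    have hvS : volume Sp + volume Sm ≤ ENNReal.ofReal (V + V) := by
      rw [ENNReal.ofReal_add hV0 hV0, ← hVeq]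
      gcongr
      · exact inter_subset_left
      · exact inter_subset_left
    calc volume (Q₂ ∪ (Qreg F₁ Wa δa ∪ Qreg F₂ Wb δb)) ≤
        volume Q₂ + (volume (Qreg F₁ Wa δa) + volume (Qreg F₂ Wb δb)) :=
          (measure_union_le _ _).trans (by gcongr; exact measure_union_le _ _)
      _ ≤ (ENNReal.ofReal (2 * β₂) * ENNReal.ofReal (V + V) + ENNReal.ofReal (ε / 8)) +
          ((ENNReal.ofReal (ε / 8) + ENNReal.ofReal (ε / 8)) +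
          (ENNReal.ofReal (ε / 8) + ENNReal.ofReal (ε / 8))) := by
          gcongr
          · exact hQ₂v.trans (by gcongr)
          · exact hQa.trans (by gcongr)
          · exact hQb.trans (by gcongr)
      _ ≤ (ENNReal.ofReal (ε / 4) + ENNReal.ofReal (ε / 8)) +
          ((ENNReal.ofReal (ε / 8) + ENNReal.ofReal (ε / 8)) +
          (ENNReal.ofReal (ε / 8) + ENNReal.ofReal (ε / 8))) := by
          rw [← ENNReal.ofReal_mul (by positivity)]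
          gcongr
      _ = ENNReal.ofReal (7 * ε / 8) := by
          rw [← ENNReal.ofReal_add (by positivity) (by positivity),
            ← ENNReal.ofReal_add (by positivity) (by positivity),
            ← ENNReal.ofReal_add (by positivity) (by positivity),
            ← ENNReal.ofReal_add (by positivity) (by positivity)]
          congr 1; ring
      _ ≤ ENNReal.ofReal ε := ENNReal.ofReal_le_ofReal (by linarith)
  · -- service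
    rintro ⟨θ, p⟩ ⟨hθ, hp⟩ s hs
    simp only at hθ hp hs ⊢
    have hs2 : |F₂ (θ, p) - s| ≤ min δ₂ (min (δa / 2) δb) := by
      have : F₂ (θ, p) - s = F (θ, p) + (φ₁ (θ, p) + φ₂ (θ, p)) - s := by
        simp only [hF₂, hF₁]; ring
      rw [this]; exact hs
    have hsδ₂ : |F₂ (θ, p) - s| ≤ δ₂ := hs2.trans (min_le_left _ _)
    have hsδa : |F₂ (θ, p) - s| ≤ δa / 2 := hs2.trans ((min_le_right _ _).trans (min_le_left _ _))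
    have hsδb : |F₂ (θ, p) - s| ≤ δb := hs2.trans ((min_le_right _ _).trans (min_le_right _ _))
    have hsδa1 : |F₁ (θ, p) - s| ≤ δa := by
      have e1 : F₁ (θ, p) - s = (F₂ (θ, p) - s) + (- φ₂ (θ, p)) := by simp only [hF₂]; ring
      rw [e1]
      refine (abs_add_le _ _).trans ?_
      rw [abs_neg]
      linarith [h2m (θ, p)]
    have hA2 := abs_le.mp (hA.hb θ hθ)
    have hB2 := abs_le.mp (hB.hb θ hθ)
    have hsepθ := hsep θ hθ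
    -- a general interval bound
    have hint : ∀ u v : ℝ, -1 ≤ u → v ≤ 1 → X / 4 ≤ v - u →
        (∀ σ ∈ Icc u v, (pt θ p σ, s) ∈ Q₂ ∪ (Qreg F₁ Wa δa ∪ Qreg F₂ Wb δb)) →
        ENNReal.ofReal ϱ ≤ volume {σ : ℝ | |σ| ≤ 1 ∧
          (pt θ p σ, s) ∈ Q₂ ∪ (Qreg F₁ Wa δa ∪ Qreg F₂ Wb δb)} := by
      intro u v hu hv huv h
      calc ENNReal.ofReal ϱ ≤ ENNReal.ofReal (v - u) := ENNReal.ofReal_le_ofReal huv
        _ = volume (Icc u v) := by rw [Real.volume_Icc]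
        _ ≤ _ := by
          apply measure_mono
          intro σ hσ
          refine ⟨?_, h σ hσ⟩
          rw [abs_le]; constructor <;> linarith [hσ.1, hσ.2]
    by_cases hb1 : |dp F₁ (θ, p)| ≤ M₁
    · apply hint (-1) 1 le_rfl le_rfl (by linarith)
      intro σ hσ
      right; left
      exact ⟨(θ, p, σ), ⟨⟨hθ, hp, hσ⟩, hb1⟩, rfl, hsδa1⟩
    by_cases hb2 : |dp F₂ (θ, p)| ≤ M₂
    · apply hint (-1) 1 le_rfl le_rfl (by linarith)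
      intro σ hσ
      right; right
      exact ⟨(θ, p, σ), ⟨⟨hθ, hp, hσ⟩, hb2⟩, rfl, hsδb⟩
    rw [not_le] at hb1 hb2
    have hM₁ϱ : M₁ * ϱ = E₁ := by rw [hM₁]; field_simp
    have hM₂ϱ : M₂ * ϱ = E₂ := by rw [hM₂]; field_simp
    have hpdA : ∀ σ, pd F₁ θ p σ = pd F₁ θ p (deriv A θ) + dp F₁ (θ, p) * (σ - deriv A θ) :=
      fun σ => pd_affine F₁ θ p σ _
    have hpdB : ∀ σ, pd F₂ θ p σ = pd F₂ θ p (deriv B θ) + dp F₂ (θ, p) * (σ - deriv B θ) :=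
      fun σ => pd_affine F₂ θ p σ _
    have hEA := abs_le.mp (hE₁' θ hθ p hp)
    have hEB := abs_le.mp (hE₂' θ hθ p hp)
    have hservp : ∀ σ ∈ Icc (-1:ℝ) 1, 0 ≤ pd F₁ θ p σ → pd F₂ θ p σ < 0 →
        (pt θ p σ, s) ∈ Q₂ ∪ (Qreg F₁ Wa δa ∪ Qreg F₂ Wb δb) := by
      intro σ hσ h1 h2
      left
      exact hQ₂p (θ, p, σ) ⟨⟨hθ, hp, hσ⟩, h1⟩ h2 s hsδ₂
    have hservn : ∀ σ ∈ Icc (-1:ℝ) 1, pd F₁ θ p σ ≤ 0 → 0 < pd F₂ θ p σ →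
        (pt θ p σ, s) ∈ Q₂ ∪ (Qreg F₁ Wa δa ∪ Qreg F₂ Wb δb) := by
      intro σ hσ h1 h2
      left
      exact hQ₂n (θ, p, σ) ⟨⟨hθ, hp, hσ⟩, h1⟩ h2 s hsδ₂
    have hM₁0 : 0 ≤ M₁ := by linarith
    have hM₂0 : 0 ≤ M₂ := by linarith
    rw [← hM₁ϱ] at hEA
    rw [← hM₂ϱ] at hEB
    rcases lt_abs.mp hb1 with h1 | h1 <;> rcases lt_abs.mp hb2 with h2 | h2
    · -- both positive
      apply hint (deriv B θ + ϱ) (deriv A θ - ϱ) (by linarith) (by linarith) (by linarith)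
      intro σ hσ
      apply hservn σ ⟨by linarith [hσ.1], by linarith [hσ.2]⟩
      · rw [hpdA]; exact (sgn1 hEA.2 h1 hM₁0 hϱ0 (by linarith [hσ.2])).le
      · rw [hpdB]; exact sgn2 hEB.1 h2 hM₂0 hϱ0 (by linarith [hσ.1])
    · apply hint (deriv A θ + ϱ) 1 (by linarith) (by linarith) (by linarith)
      intro σ hσ
      apply hservp σ ⟨by linarith [hσ.1], by linarith [hσ.2]⟩
      · rw [hpdA]; exact (sgn2 hEA.1 h1 hM₁0 hϱ0 (by linarith [hσ.1])).le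
      · rw [hpdB]; exact sgn4 hEB.2 h2 hM₂0 hϱ0 (by linarith [hσ.1])
    · apply hint (deriv A θ + ϱ) 1 (by linarith) (by linarith) (by linarith)
      intro σ hσ
      apply hservn σ ⟨by linarith [hσ.1], by linarith [hσ.2]⟩
      · rw [hpdA]; exact (sgn4 hEA.2 h1 hM₁0 hϱ0 (by linarith [hσ.1])).le
      · rw [hpdB]; exact sgn2 hEB.1 h2 hM₂0 hϱ0 (by linarith [hσ.1])
    · apply hint (deriv B θ + ϱ) (deriv A θ - ϱ) (by linarith) (by linarith) (by linarith)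
      intro σ hσ
      apply hservp σ ⟨by linarith [hσ.1], by linarith [hσ.2]⟩
      · rw [hpdA]; exact (sgn3 hEA.1 h1 hM₁0 hϱ0 (by linarith [hσ.2])).le
      · rw [hpdB]; exact sgn4 hEB.2 h2 hM₂0 hϱ0 (by linarith [hσ.1])

end Croft.KA

namespace Croft

/-- **(KA)** the kill lemma, for rectangles. -/
theorem kill_abstract (a1 a2 b1 b2 : ℝ) (ha : a1 ≤ a2) (hb : b1 ≤ b2) (O : Set (ℝ × ℝ))
    (hO : IsOpen O) (hCO : Icc a1 a2 ×ˢ Icc b1 b2 ⊆ O)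
    (A B : ℝ → ℝ) (hA : ContDiff ℝ 2 A) (hB : ContDiff ℝ 2 B) (X : ℝ) (hX : 0 < X)
    (hsep : ∀ l ∈ Icc a1 a2 ×ˢ Icc b1 b2, X ≤ deriv A l.1 - deriv B l.1)
    (hAb : ∀ l ∈ Icc a1 a2 ×ˢ Icc b1 b2, |deriv A l.1| ≤ 1 / 2)
    (hBb : ∀ l ∈ Icc a1 a2 ×ˢ Icc b1 b2, |deriv B l.1| ≤ 1 / 2)
    (P : ℝ → (ℝ × ℝ → ℝ) → Prop)
    (hadd : ∀ μ₁ μ₂ φ₁ φ₂, P μ₁ φ₁ → P μ₂ φ₂ → P (μ₁ + μ₂) (fun l => φ₁ l + φ₂ l))
    (hzero : ∀ μ, 0 ≤ μ → P μ (fun _ => 0))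
    (hC1 : ∀ μ φ, P μ φ → ContDiff ℝ 1 φ) (hsup : ∀ μ φ, P μ φ → ∀ l, |φ l| ≤ 2 * μ)
    (hwA : ∀ K μ : ℝ, 0 < μ → ∃ k0 > 0, ∀ k ≥ k0, ∃ φ, P μ φ ∧ ∀ l ∈ O,
      φ l = K / (2 * Real.pi * k) * Real.sin (2 * Real.pi * k * (l.2 - A l.1)))
    (hwB : ∀ K μ : ℝ, 0 < μ → ∃ k0 > 0, ∀ k ≥ k0, ∃ φ, P μ φ ∧ ∀ l ∈ O,
      φ l = K / (2 * Real.pi * k) * Real.sin (2 * Real.pi * k * (l.2 - B l.1)))
    (F : ℝ × ℝ → ℝ) (hF : ContDiff ℝ 1 F) (ε μ : ℝ) (hε : 0 < ε) (hμ : 0 < μ) :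
    ∃ φ, P μ φ ∧ ∃ δ > 0, ∃ Q : Set (ℂ × ℝ), MeasurableSet Q ∧ volume Q ≤ ENNReal.ofReal ε ∧
      Serve (fun l => F l + φ l) (Icc a1 a2 ×ˢ Icc b1 b2) (X / 4) δ Q :=
  KA.kill_core ha hb hO hCO ⟨hadd, hzero, hC1, hsup⟩
    ⟨hA, fun θ hθ => hAb (θ, b1) ⟨hθ, le_rfl, hb⟩, hwA⟩
    ⟨hB, fun θ hθ => hBb (θ, b1) ⟨hθ, le_rfl, hb⟩, hwB⟩ hX
    (fun θ hθ => hsep (θ, b1) ⟨hθ, le_rfl, hb⟩) hF hε hμ

end Croft
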